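import Pool.Agent.GAP.Defs

open Polynomial MeasureTheory Pool.Agent.H27Mahler

namespace Pool.Agent.GAP

theorem coeff_E (f : ℂ[X]) (j : ℕ) : (E f).coeff j = (j : ℂ) * f.coeff j := by
  unfold E
  cases j with
  | zero => simp
  | succ j =>
    rw [coeff_X_mul, coeff_derivative]
    push_cast
    ring

theorem natDegree_E {G : ℂ[X]} (h : 1 ≤ G.natDegree) : (E G).natDegree = G.natDegree := by
  refine le_antisymm ?_ ?_
  · refine natDegree_le_iff_coeff_eq_zero.2 fun j hj => ?_
    rw [coeff_E, coeff_eq_zero_of_natDegree_lt hj, mul_zero]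
  · refine le_natDegree_of_ne_zero ?_
    rw [coeff_E]
    refine mul_ne_zero (Nat.cast_ne_zero.2 (by omega)) ?_
    rw [coeff_natDegree, leadingCoeff_ne_zero]
    rintro rfl
    simp at h

theorem ne_zero_of_deg {G : ℂ[X]} (h : 1 ≤ G.natDegree) : G ≠ 0 := by
  rintro rfl
  simp at h

theorem E_ne_zero {G : ℂ[X]} (h : 1 ≤ G.natDegree) : E G ≠ 0 :=
  ne_zero_of_deg (by rw [natDegree_E h]; exact h)

theorem derivative_ne_zero {G : ℂ[X]} (h : 1 ≤ G.natDegree) : derivative G ≠ 0 := by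
  intro h0
  apply E_ne_zero h
  unfold E
  rw [h0, mul_zero]

theorem eval_E (f : ℂ[X]) (z : ℂ) : (E f).eval z = z * (derivative f).eval z := by
  unfold E
  rw [eval_mul, eval_X]

/-- Gauss-Lucas for the closed unit disc -/
theorem gauss_lucas {G : ℂ[X]} (h : 1 ≤ G.natDegree) (hr : ∀ a : ℂ, G.eval a = 0 → ‖a‖ ≤ 1)
    {z : ℂ} (hz : (derivative G).eval z = 0) : ‖z‖ ≤ 1 := by
  have hdeg : 0 < G.degree := natDegree_pos_iff_degree_pos.1 h
  have h2 := rootSet_derivative_subset_convexHull_rootSet hdeg (a := z) (by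
    rw [mem_rootSet]
    exact ⟨derivative_ne_zero h, by simpa using hz⟩)
  have h3 : convexHull ℝ (G.rootSet ℂ) ⊆ Metric.closedBall 0 1 := by
    apply convexHull_min _ (convex_closedBall _ _)
    intro β hβ
    rw [mem_rootSet] at hβ
    rw [mem_closedBall_zero_iff]
    exact hr β (by simpa using hβ.2)
  have h5 := h3 h2
  rwa [mem_closedBall_zero_iff] at h5

/-- roots stay in the closed disc (Gauss-Lucas) -/
theorem roots_E {G : ℂ[X]} (h : 1 ≤ G.natDegree) (hr : ∀ a ∈ G.roots, ‖a‖ ≤ 1) :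
    ∀ a ∈ (E G).roots, ‖a‖ ≤ 1 := by
  intro a ha
  have h1 : (E G).eval a = 0 := ((mem_roots').1 ha).2
  rw [eval_E, mul_eq_zero] at h1
  rcases h1 with h1 | h1
  · rw [h1, norm_zero]
    exact zero_le_one
  · exact gauss_lucas h (fun b hb => hr b ((mem_roots').2 ⟨ne_zero_of_deg h, hb⟩)) h1

theorem half_re {a z : ℂ} (ha : ‖a‖ ≤ 1) (hz : 1 ≤ ‖z‖) (h : z ≠ a) :
    1 / 2 ≤ (z * (1 / (z - a))).re := by
  have hd : z - a ≠ 0 := sub_ne_zero.mpr h
  have hn : 0 < Complex.normSq (z - a) := Complex.normSq_pos.2 hd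
  have h1 : (z * (1 / (z - a))).re =
      (z.re * (z - a).re + z.im * (z - a).im) / Complex.normSq (z - a) := by
    rw [mul_one_div, Complex.div_re]
    ring
  have ha2 : Complex.normSq a ≤ 1 := by
    rw [Complex.normSq_eq_norm_sq]
    exact pow_le_one₀ (norm_nonneg _) ha
  have hz2 : 1 ≤ Complex.normSq z := by
    rw [Complex.normSq_eq_norm_sq]
    exact one_le_pow₀ hz
  rw [h1, div_le_div_iff₀ two_pos hn]
  rw [Complex.normSq_apply] at ha2 hz2 ⊢
  simp only [Complex.sub_re, Complex.sub_im]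
  nlinarith

theorem half_le {n : ℕ} {G : ℂ[X]} (_hn : 1 ≤ n) (hd : G.natDegree = n)
    (hr : ∀ a ∈ G.roots, ‖a‖ ≤ 1) {z : ℂ} (hz : 1 ≤ ‖z‖) :
    (n : ℝ) * ‖G.eval z‖ ≤ 2 * ‖(E G).eval z‖ := by
  by_cases h0 : G.eval z = 0
  · rw [h0, norm_zero, mul_zero]
    positivity
  have hG : G ≠ 0 := by
    rintro rfl
    simp at h0
  have hs : ∀ a ∈ G.roots, z ≠ a := by
    rintro a ha rfl
    exact h0 ((mem_roots').1 ha).2
  have e1 := (IsAlgClosed.splits G).eval_derivative_eq_eval_mul_sum h0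
  have e4 : (E G).eval z = G.eval z * (G.roots.map fun α => z * (1 / (z - α))).sum := by
    rw [eval_E, e1, Multiset.sum_map_mul_left]
    ring
  have hcard : (G.roots.card : ℝ) = (n : ℝ) := by
    rw [← hd, (IsAlgClosed.splits G).natDegree_eq_card_roots]
  have hsum : ∀ s : Multiset ℂ, (∀ a ∈ s, ‖a‖ ≤ 1) → (∀ a ∈ s, z ≠ a) →
      (s.card : ℝ) / 2 ≤ (s.map fun α => z * (1 / (z - α))).sum.re := by
    intro s
    induction s using Multiset.induction_on with
    | empty => intro _ _; simp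
    | cons a s ih =>
      intro h1 h2
      have h3 := ih (fun b hb => h1 b (Multiset.mem_cons_of_mem hb))
        (fun b hb => h2 b (Multiset.mem_cons_of_mem hb))
      have h4 := half_re (h1 a (Multiset.mem_cons_self a s)) hz (h2 a (Multiset.mem_cons_self a s))
      rw [Multiset.map_cons, Multiset.sum_cons, Complex.add_re, Multiset.card_cons]
      push_cast
      linarith
  have h5 := hsum _ hr hs
  rw [hcard] at h5
  have h6 : (n : ℝ) / 2 ≤ ‖(G.roots.map fun α => z * (1 / (z - α))).sum‖ :=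
    h5.trans (Complex.re_le_norm _)
  rw [e4, norm_mul]
  nlinarith [norm_nonneg (G.eval z)]

theorem not_bounded {G : ℂ[X]} (h : 1 ≤ G.natDegree) (B : ℝ) :
    ∃ w : ℂ, 1 ≤ ‖w‖ ∧ B < ‖G.eval w‖ := by
  have hdeg : 0 < G.degree := natDegree_pos_iff_degree_pos.1 h
  have hz : Filter.Tendsto (fun k : ℕ => ‖((k : ℂ) + 1)‖) Filter.atTop Filter.atTop := by
    have h1 : ∀ k : ℕ, ‖((k : ℂ) + 1)‖ = (k : ℝ) + 1 := by
      intro k
      have h2 : ((k : ℂ) + 1) = (((k : ℝ) + 1 : ℝ) : ℂ) := by push_cast; ring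
      rw [h2, Complex.norm_real, Real.norm_of_nonneg (by positivity)]
    simp only [h1]
    exact Filter.tendsto_atTop_add_const_right _ _ tendsto_natCast_atTop_atTop
  have h2 := G.tendsto_norm_atTop hdeg hz
  obtain ⟨k, hk1, hk2⟩ := ((h2.eventually_gt_atTop B).and (hz.eventually_ge_atTop 1)).exists
  exact ⟨_, hk2, hk1⟩

/-- domination is preserved by `E` (Bernstein) -/
theorem dom_E {n : ℕ} {f G : ℂ[X]} (hn : 1 ≤ n) (h : Dom n f G) : Dom n (E f) (E G) := by
  have hGn : 1 ≤ G.natDegree := by rw [h.deg]; exact hn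
  have hG0 : G ≠ 0 := ne_zero_of_deg hGn
  have hrG : ∀ a : ℂ, G.eval a = 0 → ‖a‖ ≤ 1 := fun a ha =>
    h.roots a ((mem_roots').2 ⟨hG0, ha⟩)
  have hout : ∀ z : ℂ, 1 < ‖z‖ → ‖(derivative f).eval z‖ ≤ ‖(derivative G).eval z‖ := by
    intro z hz
    by_contra hcon
    push Not at hcon
    have hG1 : (derivative G).eval z ≠ 0 := fun h0 => absurd (gauss_lucas hGn hrG h0) (not_le.2 hz)
    have hG1' : 0 < ‖(derivative G).eval z‖ := norm_pos_iff.2 hG1
    obtain ⟨lam, hlam⟩ : ∃ lam : ℂ, lam = (derivative f).eval z / (derivative G).eval z := ⟨_, rfl⟩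
    have hl1 : 1 < ‖lam‖ := by
      rw [hlam, norm_div, one_lt_div hG1']
      exact hcon
    have hev : ∀ w : ℂ, 1 ≤ ‖w‖ → (‖lam‖ - 1) * ‖G.eval w‖ ≤ ‖(f - C lam * G).eval w‖ := by
      intro w hw
      rw [eval_sub, eval_mul, eval_C]
      have h1 := h.le w hw
      have h2 := norm_sub_norm_le (lam * G.eval w) (f.eval w)
      rw [norm_mul, norm_sub_rev] at h2
      nlinarith [norm_nonneg (G.eval w)]
    have hdeg : 1 ≤ (f - C lam * G).natDegree := by
      by_contra h0
      have h1 : (f - C lam * G).natDegree = 0 := by omega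
      rw [natDegree_eq_zero] at h1
      obtain ⟨c, hc⟩ := h1
      obtain ⟨w, hw1, hw2⟩ := not_bounded hGn (‖c‖ / (‖lam‖ - 1))
      have h3 := hev w hw1
      rw [← hc, eval_C] at h3
      rw [div_lt_iff₀ (by linarith)] at hw2
      linarith
    have h4 : (derivative (f - C lam * G)).eval z = 0 := by
      rw [derivative_sub, derivative_C_mul, eval_sub, eval_mul, eval_C, hlam,
        div_mul_cancel₀ _ hG1, sub_self]
    have h5 : ∀ a : ℂ, (f - C lam * G).eval a = 0 → ‖a‖ ≤ 1 := by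
      intro a ha
      by_contra h6
      push Not at h6
      have h7 := hev a h6.le
      rw [ha, norm_zero] at h7
      have h8 : G.eval a ≠ 0 := fun h9 => absurd (hrG a h9) (not_le.2 h6)
      have h9 : 0 < ‖G.eval a‖ := norm_pos_iff.2 h8
      have h10 : 0 < (‖lam‖ - 1) * ‖G.eval a‖ := mul_pos (by linarith) h9
      linarith
    exact absurd (gauss_lucas hdeg h5 h4) (not_le.2 hz)
  have hout' : ∀ z : ℂ, 1 < ‖z‖ → ‖(E f).eval z‖ ≤ ‖(E G).eval z‖ := by
    intro z hz
    rw [eval_E, eval_E, norm_mul, norm_mul]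
    exact mul_le_mul_of_nonneg_left (hout z hz) (norm_nonneg _)
  refine ⟨by rw [natDegree_E hGn, h.deg], roots_E hGn h.roots, fun z hz => ?_⟩
  rcases hz.lt_or_eq with hz | hz
  · exact hout' z hz
  · have hc : ∀ P : ℂ[X], Filter.Tendsto (fun t : ℝ => ‖P.eval ((t : ℂ) * z)‖)
        (nhdsWithin 1 (Set.Ioi 1)) (nhds ‖P.eval z‖) := by
      intro P
      have h1 : Continuous fun t : ℝ => ‖P.eval ((t : ℂ) * z)‖ := by fun_prop
      have h2 := (h1.tendsto 1).mono_left (nhdsWithin_le_nhds (s := Set.Ioi 1))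
      simpa using h2
    refine le_of_tendsto_of_tendsto (hc (E f)) (hc (E G)) ?_
    filter_upwards [self_mem_nhdsWithin] with t ht
    refine hout' _ ?_
    rw [norm_mul, ← hz, mul_one, Complex.norm_real, Real.norm_of_nonneg (by
      have : (1 : ℝ) < t := ht
      linarith)]
    exact ht

theorem E_C_mul (c : ℂ) (f : ℂ[X]) : E (C c * f) = C c * E f := by
  unfold E
  rw [derivative_C_mul]
  ring

theorem dom_opl {n : ℕ} {f G : ℂ[X]} (hn : 1 ≤ n) (h : Dom n f G) (l : List ℝ)
    (hl : ∀ c ∈ l, |c| ≤ n) :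
    Dom n (opl l f) (C ((3 : ℂ) ^ l.length) * E^[l.length] G) := by
  induction l with
  | nil =>
    simpa [opl] using h
  | cons c l ih =>
    have h1 := ih fun b hb => hl b (List.mem_cons_of_mem _ hb)
    have h2 := dom_E hn h1
    have hc : |c| ≤ n := hl c (List.mem_cons_self)
    have e1 : C ((3 : ℂ) ^ (c :: l).length) * E^[(c :: l).length] G =
        C (3 : ℂ) * E (C ((3 : ℂ) ^ l.length) * E^[l.length] G) := by
      rw [List.length_cons, Function.iterate_succ_apply', E_C_mul, ← mul_assoc, ← C_mul, pow_succ']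
    have e2 : opl (c :: l) f = E (opl l f) + C (c : ℂ) * opl l f := rfl
    have h3 : (3 : ℂ) ≠ 0 := by norm_num
    rw [e1, e2]
    refine ⟨?_, ?_, fun z hz => ?_⟩
    · rw [natDegree_C_mul h3]
      exact h2.deg
    · rw [roots_C_mul _ h3]
      exact h2.roots
    · have h4 := h2.le z hz
      have h5 := h1.le z hz
      have h6 := half_le hn h1.deg h1.roots hz
      rw [eval_add, eval_mul, eval_mul, eval_C, eval_C]
      refine (norm_add_le _ _).trans ?_
      rw [norm_mul, norm_mul, Complex.norm_real, Real.norm_eq_abs]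
      have h7 : ‖(3 : ℂ)‖ = 3 := by simp
      rw [h7]
      have h8 : |c| * ‖(opl l f).eval z‖ ≤
          n * ‖(C ((3 : ℂ) ^ l.length) * E^[l.length] G).eval z‖ :=
        mul_le_mul hc h5 (norm_nonneg _) (Nat.cast_nonneg _)
      linarith

theorem norm_sub_le_rt (a z : ℂ) (hz : 1 ≤ ‖z‖) : ‖z - a‖ ≤ ‖cst a‖ * ‖z - rt a‖ := by
  unfold cst rt
  split_ifs with h
  · simp
  · push Not at h
    have hα : (starRingEnd ℂ) a ≠ 0 := by
      intro h0
      have : ‖(starRingEnd ℂ) a‖ = 0 := by rw [h0]; simp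
      rw [RCLike.norm_conj] at this
      linarith
    rw [← norm_mul]
    have h1 : -(starRingEnd ℂ) a * (z - ((starRingEnd ℂ) a)⁻¹) = 1 - (starRingEnd ℂ) a * z := by
      rw [mul_sub, neg_mul, neg_mul, mul_inv_cancel₀ hα]
      ring
    rw [h1]
    have ha2 : 1 ≤ Complex.normSq a := by
      rw [Complex.normSq_eq_norm_sq]
      exact one_le_pow₀ h.le
    have hz2 : 1 ≤ Complex.normSq z := by
      rw [Complex.normSq_eq_norm_sq]
      exact one_le_pow₀ hz
    refine (sq_le_sq₀ (norm_nonneg _) (norm_nonneg _)).1 ?_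
    rw [← Complex.normSq_eq_norm_sq, ← Complex.normSq_eq_norm_sq]
    rw [Complex.normSq_apply] at ha2 hz2 ⊢
    rw [Complex.normSq_apply]
    simp only [Complex.sub_re, Complex.sub_im, Complex.mul_re, Complex.mul_im, Complex.conj_re,
      Complex.conj_im, Complex.one_re, Complex.one_im]
    nlinarith [mul_nonneg (sub_nonneg.2 ha2) (sub_nonneg.2 hz2)]

theorem dom_flip {p : ℂ[X]} (hp : p ≠ 0) : Dom p.natDegree p (flip p) := by
  refine ⟨natDegree_flip hp, fun a ha => ?_, fun z hz => ?_⟩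
  · rw [roots_flip hp] at ha
    obtain ⟨γ, -, rfl⟩ := Multiset.mem_map.mp ha
    exact norm_rt_le γ
  · conv_lhs => rw [(IsAlgClosed.splits p).eval_eq_prod_roots]
    unfold Pool.Agent.H27Mahler.flip
    rw [eval_mul, eval_C, eval_multiset_prod, Multiset.map_map, Multiset.map_map, norm_mul,
      norm_mul, norm_mul, mul_assoc]
    refine mul_le_mul_of_nonneg_left ?_ (norm_nonneg _)
    induction p.roots using Multiset.induction_on with
    | empty => simp
    | cons a s ih =>
      simp only [Multiset.map_cons, Multiset.prod_cons, norm_mul, Function.comp_apply, eval_sub,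
        eval_X, eval_C] at ih ⊢
      have h1 := norm_sub_le_rt a z hz
      calc ‖z - a‖ * ‖(s.map fun x => z - x).prod‖
          ≤ (‖cst a‖ * ‖z - rt a‖) * (‖(s.map cst).prod‖ *
            ‖(s.map fun x => z - rt x).prod‖) :=
            mul_le_mul h1 ih (norm_nonneg _) (by positivity)
        _ = _ := by ring

end Pool.Agent.GAP
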