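import Pool.Agent.GAP.A01Dom

open Polynomial MeasureTheory Pool.Agent.H27Mahler

namespace Pool.Agent.GAP

theorem natDegree_it {n : ℕ} {G : ℂ[X]} (hn : 1 ≤ n) (hd : G.natDegree = n) (r : ℕ) :
    (E^[r] G).natDegree = n := by
  induction r with
  | zero => exact hd
  | succ r ih =>
    rw [Function.iterate_succ_apply', natDegree_E (by rw [ih]; exact hn), ih]

theorem roots_it {n : ℕ} {G : ℂ[X]} (hn : 1 ≤ n) (hd : G.natDegree = n)
    (hr : ∀ a ∈ G.roots, ‖a‖ ≤ 1) (r : ℕ) : ∀ a ∈ (E^[r] G).roots, ‖a‖ ≤ 1 := by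
  induction r with
  | zero => exact hr
  | succ r ih =>
    rw [Function.iterate_succ_apply']
    exact roots_E (by rw [natDegree_it hn hd]; exact hn) ih

theorem coeff_it (G : ℂ[X]) (r j : ℕ) : (E^[r] G).coeff j = (j : ℂ) ^ r * G.coeff j := by
  induction r with
  | zero => simp
  | succ r ih =>
    rw [Function.iterate_succ_apply', coeff_E, ih, pow_succ']
    ring

/-- the mean of `log |E^r (flip p)|` -/
theorem integral_it {p : ℂ[X]} (hp : 1 ≤ p.natDegree) (r : ℕ) :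
    ∫ τ : UnitAddCircle, Real.log ‖(E^[r] (flip p)).eval (pt τ)‖ =
      r * Real.log p.natDegree + p.logMahlerMeasure := by
  have hp0 : p ≠ 0 := ne_zero_of_deg hp
  have hd := natDegree_flip hp0
  have hdr := natDegree_it hp hd r
  have h1 : ((E^[r] (flip p)).roots.map (fun a => max 1 ‖a‖)).prod = 1 := by
    apply Multiset.prod_eq_one
    intro x hx
    obtain ⟨α, hα, rfl⟩ := Multiset.mem_map.mp hx
    exact max_eq_left (roots_it hp hd (dom_flip hp0).roots r α hα)
  have h2 : (E^[r] (flip p)).mahlerMeasure = (p.natDegree : ℝ) ^ r * p.mahlerMeasure := by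
    rw [mahlerMeasure_eq_leadingCoeff_mul_prod_roots, h1, mul_one, leadingCoeff, hdr, coeff_it,
      norm_mul, norm_pow, Complex.norm_natCast, ← norm_leadingCoeff_flip, leadingCoeff, hd]
  have h3 : (0 : ℝ) < p.natDegree := by exact_mod_cast hp
  rw [integral_log_norm_eval, logMahlerMeasure_eq_log_MahlerMeasure, h2,
    Real.log_mul (pow_pos h3 r).ne' (mahlerMeasure_pos_of_ne_zero hp0).ne', Real.log_pow,
    logMahlerMeasure_eq_log_MahlerMeasure]

theorem it_lower {n : ℕ} {G : ℂ[X]} (hn : 2 ≤ n) (hd : G.natDegree = n)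
    (hr : ∀ a ∈ G.roots, ‖a‖ ≤ 1) {z : ℂ} (hz : ‖z‖ = 1) {r s : ℕ} (hrs : r ≤ s) :
    ‖(E^[r] G).eval z‖ ≤ ‖(E^[s] G).eval z‖ := by
  induction s, hrs using Nat.le_induction with
  | base => exact le_rfl
  | succ s _ ih =>
    refine ih.trans ?_
    have hn1 : 1 ≤ n := by omega
    have h1 := half_le hn1 (natDegree_it hn1 hd s) (roots_it hn1 hd hr s) hz.ge
    rw [Function.iterate_succ_apply']
    have h2 : (2 : ℝ) ≤ n := by exact_mod_cast hn
    have h3 := norm_nonneg ((E^[s] G).eval z)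
    nlinarith

theorem log_le_sqrt {x : ℝ} (hx : 0 < x) : Real.log x ≤ x ^ (1 / 2 : ℝ) := by
  rw [← Real.sqrt_eq_rpow]
  have h1 : Real.log x = 2 * Real.log (Real.sqrt x) := by
    rw [Real.log_sqrt hx.le]
    ring
  have hs : 0 < Real.sqrt x := Real.sqrt_pos.2 hx
  have h2 := Real.log_le_sub_one_of_pos (x := Real.sqrt x / 2) (by positivity)
  rw [Real.log_div hs.ne' (by norm_num)] at h2
  have h3 := Real.log_two_lt_d9
  rw [h1]
  linarith

/-- one more derivative costs little outside a small neighbourhood of the roots -/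
theorem step_upper {n : ℕ} {G : ℂ[X]} (hn : 1 ≤ n) (hd : G.natDegree = n)
    (hr : ∀ a ∈ G.roots, ‖a‖ ≤ 1) {z : ℂ} (hz : ‖z‖ = 1) (hG : G.eval z ≠ 0) :
    Real.log ‖(E G).eval z‖ ≤ Real.log ‖G.eval z‖ + 4 * Real.log n +
      (n : ℝ) ^ (-(3 / 2) : ℝ) * (G.roots.map fun a => ‖z - a‖ ^ (-(1 / 2) : ℝ)).sum := by
  have hn' : (1 : ℝ) ≤ n := by exact_mod_cast hn
  have hn0 : (0 : ℝ) < n := by linarith
  have hG0 : 0 < ‖G.eval z‖ := norm_pos_iff.2 hG
  have hE0 : 0 < ‖(E G).eval z‖ := by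
    have h1 := half_le hn hd hr hz.ge
    have h2 : 0 < (n : ℝ) * ‖G.eval z‖ := mul_pos hn0 hG0
    linarith
  have hs : ∀ a ∈ G.roots, z ≠ a := by
    rintro a ha rfl
    exact hG ((mem_roots').1 ha).2
  have e1 := (IsAlgClosed.splits G).eval_derivative_eq_eval_mul_sum hG
  have e4 : ‖(E G).eval z‖ ≤ ‖G.eval z‖ * (G.roots.map fun a => ‖z - a‖⁻¹).sum := by
    rw [eval_E, e1, norm_mul, norm_mul, hz, one_mul]
    refine mul_le_mul_of_nonneg_left ?_ (norm_nonneg _)
    have h1 := norm_multiset_sum_le (G.roots.map fun a => 1 / (z - a))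
    rw [Multiset.map_map] at h1
    refine h1.trans (le_of_eq ?_)
    congr 1
    refine Multiset.map_congr rfl fun a _ => ?_
    simp
  -- the nearest root
  have hcard : G.roots.card = n := by
    rw [← hd, (IsAlgClosed.splits G).natDegree_eq_card_roots]
  have hne : G.roots.toFinset.Nonempty := by
    rw [Finset.nonempty_iff_ne_empty, Ne, Multiset.toFinset_eq_empty]
    intro h
    rw [h, Multiset.card_zero] at hcard
    omega
  obtain ⟨b, hb, hmin⟩ := Finset.exists_min_image G.roots.toFinset (fun a => ‖z - a‖) hne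
  rw [Multiset.mem_toFinset] at hb
  have ht : 0 < ‖z - b‖ := norm_pos_iff.2 (sub_ne_zero.2 (hs b hb))
  have h1 : (G.roots.map fun a => ‖z - a‖⁻¹).sum ≤ n * ‖z - b‖⁻¹ := by
    have h2 := Multiset.sum_le_card_nsmul (G.roots.map fun a => ‖z - a‖⁻¹) ‖z - b‖⁻¹ (by
      intro x hx
      obtain ⟨a, ha, rfl⟩ := Multiset.mem_map.mp hx
      have h3 := hmin a (Multiset.mem_toFinset.2 ha)
      exact inv_anti₀ ht h3)
    rw [Multiset.card_map, hcard, nsmul_eq_mul] at h2
    exact h2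
  have h2 : ‖(E G).eval z‖ ≤ ‖G.eval z‖ * (n * ‖z - b‖⁻¹) :=
    e4.trans (mul_le_mul_of_nonneg_left h1 (norm_nonneg _))
  have h3 : Real.log ‖(E G).eval z‖ ≤ Real.log ‖G.eval z‖ + Real.log n - Real.log ‖z - b‖ := by
    refine (Real.log_le_log hE0 h2).trans (le_of_eq ?_)
    rw [Real.log_mul hG0.ne' (by positivity), Real.log_mul hn0.ne' (by positivity), Real.log_inv]
    ring
  have h4 : -Real.log ‖z - b‖ ≤ 3 * Real.log n +
      (n : ℝ) ^ (-(3 / 2) : ℝ) * ‖z - b‖ ^ (-(1 / 2) : ℝ) := by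
    have h5 := log_le_sqrt (x := (n : ℝ) ^ (-3 : ℝ) * ‖z - b‖⁻¹) (by positivity)
    rw [Real.log_mul (by positivity) (by positivity), Real.log_rpow hn0, Real.log_inv,
      Real.mul_rpow (by positivity) (by positivity), ← Real.rpow_mul hn0.le,
      ← Real.rpow_neg_one, ← Real.rpow_mul ht.le] at h5
    norm_num at h5 ⊢
    linarith
  have h6 : ‖z - b‖ ^ (-(1 / 2) : ℝ) ≤
      (G.roots.map fun a => ‖z - a‖ ^ (-(1 / 2) : ℝ)).sum := by
    refine Multiset.single_le_sum ?_ _ (Multiset.mem_map.2 ⟨b, hb, rfl⟩)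
    intro x hx
    obtain ⟨a, _, rfl⟩ := Multiset.mem_map.mp hx
    positivity
  have h7 : (n : ℝ) ^ (-(3 / 2) : ℝ) * ‖z - b‖ ^ (-(1 / 2) : ℝ) ≤ (n : ℝ) ^ (-(3 / 2) : ℝ) *
      (G.roots.map fun a => ‖z - a‖ ^ (-(1 / 2) : ℝ)).sum :=
    mul_le_mul_of_nonneg_left h6 (by positivity)
  linarith

theorem kernel_nonneg (n : ℕ) (G : ℂ[X]) (z : ℂ) :
    0 ≤ (n : ℝ) ^ (-(3 / 2) : ℝ) * (G.roots.map fun a => ‖z - a‖ ^ (-(1 / 2) : ℝ)).sum := by
  refine mul_nonneg (by positivity) (Multiset.sum_nonneg fun x hx => ?_)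
  obtain ⟨a, _, rfl⟩ := Multiset.mem_map.mp hx
  positivity

theorem steps_upper {n : ℕ} {G : ℂ[X]} (hn : 1 ≤ n) (hd : G.natDegree = n)
    (hr : ∀ a ∈ G.roots, ‖a‖ ≤ 1) {z : ℂ} (hz : ‖z‖ = 1) (hG : ∀ r, (E^[r] G).eval z ≠ 0)
    {k s : ℕ} (hks : k ≤ s) :
    Real.log ‖(E^[s] G).eval z‖ ≤ Real.log ‖(E^[k] G).eval z‖ + 4 * s * Real.log n +
      (n : ℝ) ^ (-(3 / 2) : ℝ) * ∑ i ∈ Finset.range s,
        ((E^[i] G).roots.map fun a => ‖z - a‖ ^ (-(1 / 2) : ℝ)).sum := by
  have hlog : 0 ≤ Real.log n := Real.log_nonneg (by exact_mod_cast hn)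
  induction s, hks using Nat.le_induction with
  | base =>
    have h1 : 0 ≤ (n : ℝ) ^ (-(3 / 2) : ℝ) * ∑ i ∈ Finset.range k,
        ((E^[i] G).roots.map fun a => ‖z - a‖ ^ (-(1 / 2) : ℝ)).sum := by
      rw [Finset.mul_sum]
      exact Finset.sum_nonneg fun i _ => kernel_nonneg n _ z
    have h2 : 0 ≤ 4 * (k : ℝ) * Real.log n := by positivity
    linarith
  | succ s _ ih =>
    have h1 := step_upper hn (natDegree_it hn hd s) (roots_it hn hd hr s) hz (hG s)
    rw [Function.iterate_succ_apply', Finset.sum_range_succ]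
    push_cast
    linarith

/-- killing the terms of a polynomial outside one place -/
theorem opl_coeff (l : List ℝ) (f : ℂ[X]) (i : ℕ) :
    (opl l f).coeff i = (l.map fun c : ℝ => ((i : ℂ) + (c : ℂ))).prod * f.coeff i := by
  induction l with
  | nil => simp [opl]
  | cons c l ih =>
    have e : opl (c :: l) f = E (opl l f) + C (c : ℂ) * opl l f := rfl
    rw [e, coeff_add, coeff_E, coeff_C_mul, ih, List.map_cons, List.prod_cons]
    ring

/-- every coefficient of a polynomial with at most `s` terms -/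
theorem crude {p : ℂ[X]} (hn : 2 ≤ p.natDegree) {s : ℕ} (hs : p.support.card ≤ s) {z : ℂ}
    (hz : ‖z‖ = 1) (j : ℕ) :
    ‖p.coeff j‖ ≤ 3 ^ s * ‖(E^[s] (flip p)).eval z‖ := by
  classical
  by_cases hj : p.coeff j = 0
  · rw [hj, norm_zero]
    positivity
  have hn1 : 1 ≤ p.natDegree := by omega
  have hp0 : p ≠ 0 := ne_zero_of_deg hn1
  have hjs : j ∈ p.support := mem_support_iff.mpr hj
  set l : List ℝ := (p.support.erase j).toList.map fun i : ℕ => -(i : ℝ) with hl
  have hlen : l.length = p.support.card - 1 := by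
    rw [hl, List.length_map, Finset.length_toList, Finset.card_erase_of_mem hjs]
  have hlc : ∀ c ∈ l, |c| ≤ (p.natDegree : ℝ) := by
    intro c hc
    rw [hl, List.mem_map] at hc
    obtain ⟨i, hi, rfl⟩ := hc
    rw [Finset.mem_toList, Finset.mem_erase] at hi
    rw [abs_neg, Nat.abs_cast]
    exact_mod_cast le_natDegree_of_mem_supp i hi.2
  have hdom := dom_opl hn1 (dom_flip hp0) l hlc
  have h1 := hdom.le z hz.ge
  have hprod : ∀ i : ℕ, (l.map fun c : ℝ => ((i : ℂ) + (c : ℂ))).prod =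
      ∏ a ∈ p.support.erase j, ((i : ℂ) - (a : ℂ)) := by
    intro i
    rw [hl, List.map_map, Finset.prod_eq_multiset_prod, ← Multiset.prod_coe, ← Multiset.map_coe,
      Finset.coe_toList]
    refine congrArg Multiset.prod (Multiset.map_congr rfl fun a _ => ?_)
    simp only [Function.comp_apply]
    push_cast
    ring
  have h2 : opl l p = monomial j ((∏ a ∈ p.support.erase j, ((j : ℂ) - (a : ℂ))) * p.coeff j) := by
    ext i
    rw [opl_coeff, hprod, coeff_monomial]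
    by_cases hij : j = i
    · subst hij
      rw [if_pos rfl]
    · rw [if_neg hij]
      by_cases his : i ∈ p.support
      · rw [Finset.prod_eq_zero (i := i) (Finset.mem_erase.2 ⟨fun h => hij h.symm, his⟩)
          (sub_self _), zero_mul]
      · rw [notMem_support_iff.mp his, mul_zero]
  have h3 : 1 ≤ ‖∏ a ∈ p.support.erase j, ((j : ℂ) - (a : ℂ))‖ := by
    rw [norm_prod]
    refine Finset.prod_induction _ (fun x : ℝ => 1 ≤ x)
      (fun a b ha hb => one_le_mul_of_one_le_of_one_le ha hb) le_rfl ?_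
    intro a ha
    rw [Finset.mem_erase] at ha
    have h4 : ((j : ℂ) - (a : ℂ)) = (((j : ℤ) - (a : ℤ) : ℤ) : ℂ) := by push_cast; ring
    rw [h4, Complex.norm_intCast]
    have h5 : (j : ℤ) - (a : ℤ) ≠ 0 := by
      intro h6
      exact ha.1 (by omega)
    exact_mod_cast Int.one_le_abs h5
  have h4 : ‖p.coeff j‖ ≤ ‖(opl l p).eval z‖ := by
    rw [h2, eval_monomial, norm_mul, norm_mul, norm_pow, hz, one_pow, mul_one]
    have := norm_nonneg (p.coeff j)
    nlinarith
  have h5 : l.length ≤ s := by rw [hlen]; omega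
  have h6 := it_lower hn (natDegree_flip hp0) (dom_flip hp0).roots hz h5
  refine h4.trans (h1.trans ?_)
  rw [eval_mul, eval_C, norm_mul, norm_pow]
  have h7 : ‖(3 : ℂ)‖ = 3 := by simp
  rw [h7]
  exact mul_le_mul (pow_le_pow_right₀ (by norm_num) h5) h6 (norm_nonneg _) (by positivity)

end Pool.Agent.GAP
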