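import Pool.Agent.GAP.Defs

/-!
# Polynomials with long gaps: control far from the roots
-/

open Polynomial MeasureTheory Pool.Agent.H27Mahler

namespace Pool.Agent.GAP

/-- the operator `E` as a linear map -/
noncomputable def EL : ℂ[X] →ₗ[ℂ] ℂ[X] := (LinearMap.mulLeft ℂ (X : ℂ[X])).comp derivative

theorem EL_apply (f : ℂ[X]) : EL f = E f := rfl

theorem EL_iterate (q : ℕ) (f : ℂ[X]) : E^[q] f = (EL ^ q) f := by
  rw [Module.End.pow_apply]
  rfl

theorem EL_add (f g : ℂ[X]) : E (f + g) = E f + E g := EL.map_add f g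

theorem EL_C_mul (c : ℂ) (f : ℂ[X]) : E (C c * f) = C c * E f := by
  unfold E
  rw [derivative_C_mul]
  ring

theorem EL_X_mul (f : ℂ[X]) : E (X * f) = X * (f + E f) := by
  unfold E
  rw [derivative_mul, derivative_X]
  ring

theorem EL_X_pow_mul (s : ℕ) (f : ℂ[X]) : E (X ^ s * f) = X ^ s * (E f + C (s : ℂ) * f) := by
  induction s generalizing f with
  | zero => simp
  | succ s ih =>
    rw [pow_succ, mul_assoc, ih, EL_X_mul]
    push_cast
    rw [C_add, C_1]
    ring

theorem opl_sum {ι : Type} (S : Finset ι) (l : List ℝ) (B : ι → ℂ[X]) :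
    opl l (∑ s ∈ S, B s) = ∑ s ∈ S, opl l (B s) := by
  induction l with
  | nil => rfl
  | cons c l ih =>
    have h1 : ∀ f : ℂ[X], opl (c :: l) f = EL (opl l f) + C (c : ℂ) * opl l f := fun f => rfl
    rw [h1, ih, map_sum, Finset.mul_sum, ← Finset.sum_add_distrib]
    rfl

theorem opl_X_pow_mul (l : List ℝ) (s : ℕ) (B : ℂ[X]) :
    opl l (X ^ s * B) = X ^ s * opl (l.map fun c => c + s) B := by
  induction l with
  | nil => rfl
  | cons c l ih =>
    have h1 : ∀ (c : ℝ) (l : List ℝ) (f : ℂ[X]),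
        opl (c :: l) f = E (opl l f) + C (c : ℂ) * opl l f := fun _ _ _ => rfl
    rw [List.map_cons, h1, h1, ih, EL_X_pow_mul]
    push_cast
    rw [C_add]
    ring

/-- products of operators `E + c` -/
theorem opl_ctl (n : ℝ) (hn : 0 ≤ n) {K τ : ℝ} (hK : 0 ≤ K) (hτ : 0 ≤ τ) (l : List ℝ)
    (hl : ∀ c ∈ l, |c| ≤ n) (B : ℂ[X]) (z : ℂ)
    (hB : ∀ q ≤ l.length, ‖(E^[q] B).eval z‖ ≤ K * τ ^ q) :
    ‖(opl l B).eval z - ((l.prod : ℝ) : ℂ) * B.eval z‖ ≤
      K * ((n + τ) ^ l.length - n ^ l.length) := by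
  -- the same for the iterates
  have key : ∀ (l : List ℝ) (L : ℕ), (∀ c ∈ l, |c| ≤ n) →
      (∀ q ≤ L, ‖(E^[q] B).eval z‖ ≤ K * τ ^ q) → ∀ j, j + l.length ≤ L →
      ‖(E^[j] (opl l B)).eval z - ((l.prod : ℝ) : ℂ) * (E^[j] B).eval z‖ ≤
        K * τ ^ j * ((n + τ) ^ l.length - n ^ l.length) := by
    intro l L hl hB
    induction l with
    | nil =>
      intro j _
      simp [opl]
    | cons c l ih =>
      intro j hj
      have hl' : ∀ c ∈ l, |c| ≤ n := fun c hc => hl c (List.mem_cons_of_mem _ hc)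
      have hc : |c| ≤ n := hl c List.mem_cons_self
      rw [List.length_cons] at hj
      have h1 := ih hl' (j + 1) (by omega)
      have h2 := ih hl' j (by omega)
      have hprod : |l.prod| ≤ n ^ l.length := by
        clear ih h1 h2 hj
        induction l with
        | nil => simp
        | cons a l ih =>
          rw [List.prod_cons, abs_mul, List.length_cons, pow_succ, mul_comm]
          refine mul_le_mul (ih ?_ (fun c hc => hl' c (List.mem_cons_of_mem _ hc)))
            (hl' a List.mem_cons_self) (abs_nonneg _) (by positivity)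
          intro c' hc'
          rcases List.mem_cons.mp hc' with h | h
          · rw [h]; exact hc
          · exact hl' c' (List.mem_cons_of_mem _ h)
      have h3 : (E^[j] (opl (c :: l) B)).eval z =
          (E^[j + 1] (opl l B)).eval z + (c : ℂ) * (E^[j] (opl l B)).eval z := by
        have h4 : opl (c :: l) B = EL (opl l B) + (c : ℂ) • opl l B := by
          rw [smul_eq_C_mul]; rfl
        rw [EL_iterate, EL_iterate, EL_iterate, h4, map_add, map_smul, eval_add, eval_smul,
          smul_eq_mul, pow_succ]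
        rfl
      have h5 : ‖(E^[j + 1] (opl l B)).eval z‖ ≤ K * τ ^ (j + 1) * (n + τ) ^ l.length := by
        have h6 : ‖((l.prod : ℝ) : ℂ) * (E^[j + 1] B).eval z‖ ≤
            n ^ l.length * (K * τ ^ (j + 1)) := by
          rw [norm_mul, Complex.norm_real, Real.norm_eq_abs]
          exact mul_le_mul hprod (hB _ (by omega)) (norm_nonneg _) (by positivity)
        have h7 : ‖(E^[j + 1] (opl l B)).eval z‖ ≤
            ‖(E^[j + 1] (opl l B)).eval z - ((l.prod : ℝ) : ℂ) * (E^[j + 1] B).eval z‖ +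
              ‖((l.prod : ℝ) : ℂ) * (E^[j + 1] B).eval z‖ := by
          have := norm_add_le ((E^[j + 1] (opl l B)).eval z -
            ((l.prod : ℝ) : ℂ) * (E^[j + 1] B).eval z) (((l.prod : ℝ) : ℂ) * (E^[j + 1] B).eval z)
          rwa [sub_add_cancel] at this
        nlinarith
      have h8 : ‖(c : ℂ) * ((E^[j] (opl l B)).eval z - ((l.prod : ℝ) : ℂ) * (E^[j] B).eval z)‖ ≤
          n * (K * τ ^ j * ((n + τ) ^ l.length - n ^ l.length)) := by
        rw [norm_mul, Complex.norm_real, Real.norm_eq_abs]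
        exact mul_le_mul hc h2 (norm_nonneg _) hn
      have h9 : (E^[j] (opl (c :: l) B)).eval z - (((c :: l).prod : ℝ) : ℂ) * (E^[j] B).eval z =
          (E^[j + 1] (opl l B)).eval z +
          (c : ℂ) * ((E^[j] (opl l B)).eval z - ((l.prod : ℝ) : ℂ) * (E^[j] B).eval z) := by
        rw [h3, List.prod_cons]
        push_cast
        ring
      rw [h9]
      refine (norm_add_le _ _).trans ((add_le_add h5 h8).trans (le_of_eq ?_))
      rw [List.length_cons]
      ring
  have := key l l.length hl hB 0 (by omega)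
  simpa using this

theorem EL_pow_X_mul (q : ℕ) (B : ℂ[X]) : (EL ^ q) (X * B) = X * ((1 + EL) ^ q) B := by
  induction q generalizing B with
  | zero => rfl
  | succ q ih =>
    rw [pow_succ, pow_succ, Module.End.mul_apply, Module.End.mul_apply, EL_apply, EL_X_mul, ih]
    rfl

/-- the step of the induction over the roots -/
theorem ctl_step (B : ℂ[X]) (b : ℂ) {z : ℂ} (hz : ‖z‖ = 1) {T : ℝ} (hT : 1 ≤ T) (hb : z ≠ b)
    {e : ℝ} (he : 0 ≤ e)
    (hB : ∀ q : ℕ, ‖((EL ^ q) B).eval z‖ ≤ q.factorial * (2 * T) ^ q * e * ‖B.eval z‖) (q : ℕ) :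
    ‖((EL ^ q) ((X - C b) * B)).eval z‖ ≤
      q.factorial * (2 * T) ^ q * (e * Real.exp (T⁻¹ * ‖z - b‖⁻¹)) *
        ‖((X - C b) * B).eval z‖ := by
  have hT0 : 0 < T := by linarith
  have hzb : 0 < ‖z - b‖ := norm_pos_iff.mpr (sub_ne_zero.mpr hb)
  have h1 : ((1 + EL) ^ q) B =
      (EL ^ q) B + ∑ j ∈ Finset.range q, (q.choose (j + 1) : ℂ) • (EL ^ (q - (j + 1))) B := by
    have hc : Commute (1 : Module.End ℂ ℂ[X]) EL := Commute.one_left _
    rw [hc.add_pow q, LinearMap.sum_apply, Finset.sum_range_succ', add_comm]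
    congr 1
    · simp
    · refine Finset.sum_congr rfl fun j _ => ?_
      rw [one_pow, one_mul, Module.End.mul_apply]
      have h2 : ((q.choose (j + 1) : ℕ) : Module.End ℂ ℂ[X]) B = (q.choose (j + 1) : ℂ) • B := by
        rw [Module.End.natCast_apply, Nat.cast_smul_eq_nsmul]
      rw [h2, map_smul]
  have h3 : (EL ^ q) ((X - C b) * B) =
      (X - C b) * (EL ^ q) B +
        X * ∑ j ∈ Finset.range q, (q.choose (j + 1) : ℂ) • (EL ^ (q - (j + 1))) B := by
    have h4 : (X - C b) * B = X * B - b • B := by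
      rw [smul_eq_C_mul]; ring
    rw [h4, map_sub, map_smul, EL_pow_X_mul, h1, smul_eq_C_mul]
    ring
  have h5 : ‖∑ j ∈ Finset.range q,
      (q.choose (j + 1) : ℂ) * ((EL ^ (q - (j + 1))) B).eval z‖ ≤
      q.factorial * (2 * T) ^ q * e * ‖B.eval z‖ * T⁻¹ := by
    refine (norm_sum_le _ _).trans ?_
    have h6 : ∀ j ∈ Finset.range q,
        ‖(q.choose (j + 1) : ℂ) * ((EL ^ (q - (j + 1))) B).eval z‖ ≤
        q.factorial * (2 * T) ^ q * e * ‖B.eval z‖ *
          ((2 * T)⁻¹ ^ (j + 1) / (j + 1).factorial) := by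
      intro j hj
      have hjq : j + 1 ≤ q := Finset.mem_range.mp hj
      rw [norm_mul, Complex.norm_natCast]
      have h7 := mul_le_mul_of_nonneg_left (hB (q - (j + 1)))
        (Nat.cast_nonneg (q.choose (j + 1)) : (0:ℝ) ≤ _)
      refine h7.trans (le_of_eq ?_)
      have h8 : ((q.choose (j + 1) : ℕ) : ℝ) * (q - (j + 1)).factorial * (j + 1).factorial =
          q.factorial := by
        have := Nat.choose_mul_factorial_mul_factorial hjq
        rw [← this]
        push_cast
        ring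
      have h9 : (2 * T) ^ q = (2 * T) ^ (q - (j + 1)) * (2 * T) ^ (j + 1) := by
        rw [← pow_add]; congr 1; omega
      have hf : ((j + 1).factorial : ℝ) ≠ 0 := by positivity
      rw [← h8, h9]
      rw [inv_pow]
      field_simp
    refine (Finset.sum_le_sum h6).trans ?_
    rw [← Finset.mul_sum]
    apply mul_le_mul_of_nonneg_left _ (by positivity)
    -- the exponential sum
    have hr : (0:ℝ) ≤ (2 * T)⁻¹ := by positivity
    have h10 := Real.sum_le_exp_of_nonneg hr (q + 1)
    rw [Finset.sum_range_succ'] at h10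
    have h11 : |Real.exp (2 * T)⁻¹ - 1| ≤ 2 * |(2 * T)⁻¹| := by
      apply Real.abs_exp_sub_one_le
      rw [abs_of_nonneg hr]
      exact inv_le_one_of_one_le₀ (by linarith)
    rw [abs_of_nonneg hr] at h11
    have h12 := le_abs_self (Real.exp (2 * T)⁻¹ - 1)
    have h13 : 2 * (2 * T)⁻¹ = T⁻¹ := by field_simp
    rw [h13] at h11
    simp only [pow_zero, Nat.factorial_zero, Nat.cast_one, div_one] at h10
    linarith
  have h14 : ((EL ^ q) ((X - C b) * B)).eval z = (z - b) * ((EL ^ q) B).eval z +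
      z * ∑ j ∈ Finset.range q, (q.choose (j + 1) : ℂ) * ((EL ^ (q - (j + 1))) B).eval z := by
    rw [h3, eval_add, eval_mul, eval_mul, eval_sub, eval_X, eval_C, eval_finset_sum]
    congr 2
    exact Finset.sum_congr rfl fun j _ => by rw [eval_smul, smul_eq_mul]
  have h15 : ‖((X - C b) * B).eval z‖ = ‖z - b‖ * ‖B.eval z‖ := by
    rw [eval_mul, eval_sub, eval_X, eval_C, norm_mul]
  rw [h14, h15]
  refine (norm_add_le _ _).trans ?_
  rw [norm_mul, norm_mul, hz, one_mul]
  have h16 : ‖z - b‖ * ‖((EL ^ q) B).eval z‖ ≤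
      ‖z - b‖ * (q.factorial * (2 * T) ^ q * e * ‖B.eval z‖) :=
    mul_le_mul_of_nonneg_left (hB q) hzb.le
  refine (add_le_add h16 h5).trans ?_
  have h17 : 1 + T⁻¹ * ‖z - b‖⁻¹ ≤ Real.exp (T⁻¹ * ‖z - b‖⁻¹) := by
    rw [add_comm]; exact Real.add_one_le_exp _
  have h18 : 0 ≤ q.factorial * (2 * T) ^ q * e * ‖B.eval z‖ := by positivity
  have h19 := mul_le_mul_of_nonneg_left h17
    (mul_nonneg h18 hzb.le)
  have h20 : q.factorial * (2 * T) ^ q * e * ‖B.eval z‖ * ‖z - b‖ * (1 + T⁻¹ * ‖z - b‖⁻¹) =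
      ‖z - b‖ * (q.factorial * (2 * T) ^ q * e * ‖B.eval z‖) +
        q.factorial * (2 * T) ^ q * e * ‖B.eval z‖ * T⁻¹ := by
    field_simp
  rw [h20] at h19
  refine h19.trans (le_of_eq ?_)
  ring

/-- the iterates of `E` on a polynomial far from its roots -/
theorem ctl (A : ℂ[X]) {z : ℂ} (hz : ‖z‖ = 1) {T : ℝ} (hT : 1 ≤ T)
    (h0 : ∀ b ∈ A.roots, z ≠ b) (hS : (A.roots.map fun b => ‖z - b‖⁻¹).sum ≤ T) (q : ℕ) :
    ‖(E^[q] A).eval z‖ ≤ 3 * q.factorial * (2 * T) ^ q * ‖A.eval z‖ := by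
  have hT0 : 0 < T := by linarith
  have key : ∀ (M : Multiset ℂ) (a : ℂ), (∀ b ∈ M, z ≠ b) → ∀ q : ℕ,
      ‖((EL ^ q) ((M.map fun b => X - C b).prod * C a)).eval z‖ ≤
        q.factorial * (2 * T) ^ q * Real.exp (T⁻¹ * (M.map fun b => ‖z - b‖⁻¹).sum) *
          ‖((M.map fun b => X - C b).prod * C a).eval z‖ := by
    intro M
    induction M using Multiset.induction_on with
    | empty =>
      intro a _ q
      rw [Multiset.map_zero, Multiset.prod_zero, one_mul, Multiset.map_zero, Multiset.sum_zero,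
        mul_zero, Real.exp_zero, mul_one]
      rcases q with _ | q
      · simp
      · have h1 : (EL ^ (q + 1)) (C a) = 0 := by
          rw [pow_succ, Module.End.mul_apply, EL_apply]
          have : E (C a) = 0 := by
            unfold E
            rw [derivative_C, mul_zero]
          rw [this, map_zero]
        rw [h1, eval_zero, norm_zero]
        positivity
    | cons b M ih =>
      intro a h q
      rw [Multiset.map_cons, Multiset.prod_cons, Multiset.map_cons, Multiset.sum_cons, mul_assoc]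
      have h1 := ctl_step ((M.map fun b => X - C b).prod * C a) b hz hT
        (h b (Multiset.mem_cons_self b M))
        (Real.exp_pos (T⁻¹ * (M.map fun b => ‖z - b‖⁻¹).sum)).le
        (ih a fun c hc => h c (Multiset.mem_cons_of_mem hc)) q
      rw [← Real.exp_add] at h1
      rw [mul_add, add_comm (T⁻¹ * ‖z - b‖⁻¹)]
      exact h1
  have hA : A = (A.roots.map fun b => X - C b).prod * C A.leadingCoeff := by
    have := (IsAlgClosed.splits A).eq_prod_roots
    rw [mul_comm]
    exact this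
  have h1 := key A.roots A.leadingCoeff h0 q
  rw [← hA, ← EL_iterate] at h1
  refine h1.trans ?_
  have h2 : Real.exp (T⁻¹ * (A.roots.map fun b => ‖z - b‖⁻¹).sum) ≤ 3 := by
    have h3 : T⁻¹ * (A.roots.map fun b => ‖z - b‖⁻¹).sum ≤ 1 := by
      rw [inv_mul_le_iff₀ hT0, mul_one]; exact hS
    exact (Real.exp_le_exp.mpr h3).trans (by linarith [Real.exp_one_lt_d9])
  have h4 : 0 ≤ (q.factorial : ℝ) * (2 * T) ^ q := by positivity
  calc q.factorial * (2 * T) ^ q * Real.exp (T⁻¹ * (A.roots.map fun b => ‖z - b‖⁻¹).sum) *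
        ‖A.eval z‖ ≤ q.factorial * (2 * T) ^ q * 3 * ‖A.eval z‖ := by gcongr
    _ = _ := by ring

end Pool.Agent.GAP
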