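import Pool.Agent.GAP.A02It
import Pool.Agent.GAP.A03Ctl

open Polynomial MeasureTheory Pool.Agent.H27Mahler

namespace Pool.Agent.GAP

/-- the constant in `good` -/
noncomputable def eps (m : ℕ) : ℝ := 1 / (24 * (m + 1) * m ^ (m + 2))

theorem eps_pos {m : ℕ} (hm : 1 ≤ m) : 0 < eps m := by
  unfold eps
  have : (0 : ℝ) < m := by exact_mod_cast hm
  positivity

theorem eps_mul {m : ℕ} (hm : 1 ≤ m) : 24 * (m + 1) * (m : ℝ) ^ (m + 2) * eps m = 1 := by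
  unfold eps
  have : (0 : ℝ) < m := by exact_mod_cast hm
  field_simp

theorem pow_one_add_le {x : ℝ} (hx : 0 ≤ x) {k : ℕ} (h : k * x ≤ 1) :
    (1 + x) ^ k ≤ 1 + 2 * (k * x) := by
  have h1 : 1 + x ≤ Real.exp x := by linarith [Real.add_one_le_exp x]
  have h2 : (1 + x) ^ k ≤ Real.exp (k * x) := by
    rw [Real.exp_nat_mul]
    exact pow_le_pow_left₀ (by linarith) h1 k
  refine h2.trans ?_
  have h3 : 0 ≤ k * x := by positivity
  have h4 := Real.abs_exp_sub_one_le (x := k * x) (by rw [abs_of_nonneg h3]; exact h)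
  rw [abs_of_nonneg h3] at h4
  linarith [le_abs_self (Real.exp (k * x) - 1)]

theorem fact_le_pow {m q : ℕ} (h : q ≤ m) : q.factorial ≤ m ^ q :=
  (Nat.factorial_le_pow q).trans (Nat.pow_le_pow_left h q)

/-- one block -/
theorem good_one {m : ℕ} (hm : 1 ≤ m) (S : Finset ℕ) (A : ℕ → ℂ[X]) {p : ℂ[X]}
    (hp : p = ∑ s ∈ S, X ^ s * A s) {n : ℕ} (hn : p.natDegree = n)
    (hn1 : 1 ≤ n) (hcard : S.card ≤ m + 1) (hSn : ∀ s ∈ S, s ≤ n)
    (hgap : ∀ s ∈ S, ∀ t ∈ S, s ≠ t → (n : ℝ) ≤ m * |(s : ℝ) - t|)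
    (hbig : 1 ≤ eps m * n) {z : ℂ} (hz : ‖z‖ = 1)
    (h0 : ∀ s ∈ S, ∀ b ∈ (A s).roots, z ≠ b)
    (hT : ∀ s ∈ S, ((A s).roots.map fun b => ‖z - b‖⁻¹).sum ≤ eps m * n) (s₀ : ℕ) (hs₀ : s₀ ∈ S) :
    ‖(A s₀).eval z‖ ≤ (3 * m) ^ m *
        (‖(E^[S.card - 1] (flip p)).eval z‖ / (n : ℝ) ^ (S.card - 1)) +
      12 * (m : ℝ) ^ (m + 2) * eps m * ∑ s ∈ S, ‖(A s).eval z‖ := by
  classical
  have hm0 : (1 : ℝ) ≤ m := by exact_mod_cast hm
  have hn0 : (1 : ℝ) ≤ n := by exact_mod_cast hn1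
  have hp0 : p ≠ 0 := by
    rintro rfl
    rw [natDegree_zero] at hn
    omega
  obtain ⟨k, hk⟩ : ∃ k, S.card - 1 = k := ⟨_, rfl⟩
  have hkm : k ≤ m := by omega
  obtain ⟨l, hl⟩ : ∃ l : List ℝ, l = (S.erase s₀).toList.map fun t : ℕ => -(t : ℝ) := ⟨_, rfl⟩
  have hlen : l.length = k := by
    rw [hl, List.length_map, Finset.length_toList, Finset.card_erase_of_mem hs₀, hk]
  have hmem : ∀ c ∈ l, ∃ t ∈ S, t ≠ s₀ ∧ c = -(t : ℝ) := by
    intro c hc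
    rw [hl, List.mem_map] at hc
    obtain ⟨t, ht, rfl⟩ := hc
    rw [Finset.mem_toList, Finset.mem_erase] at ht
    exact ⟨t, ht.2, ht.1, rfl⟩
  have habs : ∀ c ∈ l, |c| ≤ n := by
    intro c hc
    obtain ⟨t, ht, -, rfl⟩ := hmem c hc
    rw [abs_neg, Nat.abs_cast]
    exact_mod_cast hSn t ht
  have hdom := (dom_opl hn1 (hn ▸ dom_flip hp0) l habs).le z hz.ge
  rw [hlen, eval_mul, eval_C, norm_mul, norm_pow] at hdom
  have h3 : ‖(3 : ℂ)‖ = 3 := by simp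
  rw [h3] at hdom
  -- the expansion
  have hexp : (opl l p).eval z = ∑ s ∈ S, z ^ s * (opl (l.map fun c => c + s) (A s)).eval z := by
    rw [hp, opl_sum, eval_finsetSum]
    refine Finset.sum_congr rfl fun s _ => ?_
    rw [opl_X_pow_mul, eval_mul, eval_pow, eval_X]
  -- the products
  have hprod0 : ∀ s ∈ S, s ≠ s₀ → (l.map fun c => c + (s : ℝ)).prod = 0 := by
    intro s hs hne
    refine List.prod_eq_zero ?_
    rw [List.mem_map]
    refine ⟨-(s : ℝ), ?_, neg_add_cancel _⟩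
    rw [hl, List.mem_map]
    exact ⟨s, Finset.mem_toList.2 (Finset.mem_erase.2 ⟨hne, hs⟩), rfl⟩
  have hprod1 : ((n : ℝ) / m) ^ k ≤ |(l.map fun c => c + (s₀ : ℝ)).prod| := by
    have h1 : ∀ l' : List ℝ, (∀ c ∈ l', ∃ t ∈ S, t ≠ s₀ ∧ c = -(t : ℝ)) →
        ((n : ℝ) / m) ^ l'.length ≤ |(l'.map fun c => c + (s₀ : ℝ)).prod| := by
      intro l'
      induction l' with
      | nil => intro _; simp
      | cons c l' ih =>
        intro h
        obtain ⟨t, ht, hne, hc⟩ := h c List.mem_cons_self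
        have h2 := ih fun c hc => h c (List.mem_cons_of_mem _ hc)
        rw [List.length_cons, List.map_cons, List.prod_cons, abs_mul, pow_succ']
        refine mul_le_mul ?_ h2 (by positivity) (abs_nonneg _)
        rw [div_le_iff₀ (by linarith), hc]
        have h3 := hgap s₀ hs₀ t ht (Ne.symm hne)
        have h4 : -(t : ℝ) + s₀ = (s₀ : ℝ) - t := by ring
        rw [h4, mul_comm]
        exact h3
    have h2 := h1 l hmem
    rwa [hlen] at h2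
  -- the error terms
  have herr : ∀ s ∈ S, ‖(opl (l.map fun c => c + (s : ℝ)) (A s)).eval z -
      (((l.map fun c => c + (s : ℝ)).prod : ℝ) : ℂ) * (A s).eval z‖ ≤
      12 * (m : ℝ) ^ 2 * eps m * (n : ℝ) ^ k * ‖(A s).eval z‖ := by
    intro s hs
    have he := eps_pos hm
    have h1 := opl_ctl (n : ℝ) (by linarith) (K := 3 * ‖(A s).eval z‖)
      (τ := 2 * m * (eps m * n)) (by positivity) (by positivity)
      (l.map fun c => c + (s : ℝ)) (by
        intro c hc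
        rw [List.mem_map] at hc
        obtain ⟨c', hc', rfl⟩ := hc
        obtain ⟨t, ht, -, rfl⟩ := hmem c' hc'
        have h2 : (t : ℝ) ≤ n := by exact_mod_cast hSn t ht
        have h3 : (s : ℝ) ≤ n := by exact_mod_cast hSn s hs
        have h4 : (0 : ℝ) ≤ t := Nat.cast_nonneg t
        have h5 : (0 : ℝ) ≤ s := Nat.cast_nonneg s
        rw [abs_le]
        constructor <;> linarith) (A s) z (by
        intro q hq
        rw [List.length_map, hlen] at hq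
        refine (ctl (A s) hz hbig (h0 s hs) (hT s hs) q).trans ?_
        have h2 : ((q.factorial : ℕ) : ℝ) ≤ (m : ℝ) ^ q := by
          exact_mod_cast fact_le_pow (hq.trans hkm)
        have h3 : 3 * ‖(A s).eval z‖ * (2 * m * (eps m * n)) ^ q =
            3 * (m : ℝ) ^ q * (2 * (eps m * n)) ^ q * ‖(A s).eval z‖ := by
          rw [show 2 * (m : ℝ) * (eps m * n) = m * (2 * (eps m * n)) by ring, mul_pow]
          ring
        rw [h3]
        gcongr)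
    refine h1.trans ?_
    rw [List.length_map, hlen]
    have hx : (k : ℝ) * (2 * m * eps m) ≤ 1 := by
      have h2 : (k : ℝ) ≤ m := by exact_mod_cast hkm
      have h3 : (k : ℝ) * (2 * m * eps m) ≤ m * (2 * m * eps m) := by gcongr
      refine h3.trans ?_
      have h4 := eps_mul hm
      have h5 : (m : ℝ) * (2 * m * eps m) = 2 * (m : ℝ) ^ 2 * eps m := by ring
      have h6 : (m : ℝ) ^ 2 ≤ (m : ℝ) ^ (m + 2) := pow_le_pow_right₀ hm0 (by omega)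
      rw [h5, ← h4]
      have h7 : 2 * (m : ℝ) ^ 2 ≤ 24 * (m + 1) * (m : ℝ) ^ (m + 2) := by
        have h8 : 0 ≤ (m : ℝ) ^ (m + 2) := by positivity
        nlinarith
      exact mul_le_mul_of_nonneg_right h7 he.le
    have h2 := pow_one_add_le (x := 2 * m * eps m) (by positivity) hx
    have h3 : ((n : ℝ) + 2 * m * (eps m * n)) ^ k = (n : ℝ) ^ k * (1 + 2 * m * eps m) ^ k := by
      rw [← mul_pow]
      ring
    have h4 : (k : ℝ) * (2 * m * eps m) ≤ 2 * (m : ℝ) ^ 2 * eps m := by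
      have h5 : (k : ℝ) ≤ m := by exact_mod_cast hkm
      have h6 : (k : ℝ) * (2 * m * eps m) ≤ m * (2 * m * eps m) := by gcongr
      refine h6.trans (le_of_eq (by ring))
    rw [h3]
    have h5 : (n : ℝ) ^ k * (1 + 2 * m * eps m) ^ k - (n : ℝ) ^ k ≤
        (n : ℝ) ^ k * (4 * (m : ℝ) ^ 2 * eps m) := by
      have h6 : 0 ≤ (n : ℝ) ^ k := by positivity
      nlinarith
    calc 3 * ‖(A s).eval z‖ * ((n : ℝ) ^ k * (1 + 2 * m * eps m) ^ k - (n : ℝ) ^ k)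
        ≤ 3 * ‖(A s).eval z‖ * ((n : ℝ) ^ k * (4 * (m : ℝ) ^ 2 * eps m)) := by gcongr
      _ = _ := by ring
  -- combine
  have hmain : ((n : ℝ) / m) ^ k * ‖(A s₀).eval z‖ ≤
      3 ^ k * ‖(E^[k] (flip p)).eval z‖ +
        12 * (m : ℝ) ^ 2 * eps m * (n : ℝ) ^ k * ∑ s ∈ S, ‖(A s).eval z‖ := by
    have e1 : z ^ s₀ * ((((l.map fun c => c + (s₀ : ℝ)).prod : ℝ) : ℂ) * (A s₀).eval z) =
        (opl l p).eval z - ∑ s ∈ S, z ^ s * ((opl (l.map fun c => c + (s : ℝ)) (A s)).eval z -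
          (((l.map fun c => c + (s : ℝ)).prod : ℝ) : ℂ) * (A s).eval z) := by
      have h1 : ∑ s ∈ S, z ^ s * ((((l.map fun c => c + (s : ℝ)).prod : ℝ) : ℂ) * (A s).eval z) =
          z ^ s₀ * ((((l.map fun c => c + (s₀ : ℝ)).prod : ℝ) : ℂ) * (A s₀).eval z) := by
        refine Finset.sum_eq_single_of_mem s₀ hs₀ fun s hs hne => ?_
        rw [hprod0 s hs hne]
        simp
      simp only [mul_sub]
      rw [Finset.sum_sub_distrib, h1, ← hexp]
      ring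
    have e2 : ‖z ^ s₀ * ((((l.map fun c => c + (s₀ : ℝ)).prod : ℝ) : ℂ) * (A s₀).eval z)‖ =
        |(l.map fun c => c + (s₀ : ℝ)).prod| * ‖(A s₀).eval z‖ := by
      rw [norm_mul, norm_pow, hz, one_pow, one_mul, norm_mul, Complex.norm_real, Real.norm_eq_abs]
    calc ((n : ℝ) / m) ^ k * ‖(A s₀).eval z‖
        ≤ |(l.map fun c => c + (s₀ : ℝ)).prod| * ‖(A s₀).eval z‖ := by gcongr
      _ = ‖z ^ s₀ * ((((l.map fun c => c + (s₀ : ℝ)).prod : ℝ) : ℂ) * (A s₀).eval z)‖ := e2.symm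
      _ ≤ ‖(opl l p).eval z‖ + ‖∑ s ∈ S, z ^ s * ((opl (l.map fun c => c + (s : ℝ)) (A s)).eval z -
          (((l.map fun c => c + (s : ℝ)).prod : ℝ) : ℂ) * (A s).eval z)‖ := by
          rw [e1]
          exact norm_sub_le _ _
      _ ≤ 3 ^ k * ‖(E^[k] (flip p)).eval z‖ +
          ∑ s ∈ S, 12 * (m : ℝ) ^ 2 * eps m * (n : ℝ) ^ k * ‖(A s).eval z‖ := by
          refine add_le_add hdom ((norm_sum_le _ _).trans (Finset.sum_le_sum fun s hs => ?_))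
          rw [norm_mul, norm_pow, hz, one_pow, one_mul]
          exact herr s hs
      _ = _ := by rw [← Finset.mul_sum]
  rw [hk]
  have hnk : (0 : ℝ) < (n : ℝ) ^ k := by positivity
  have he := eps_pos hm
  have hY : 0 ≤ ∑ s ∈ S, ‖(A s).eval z‖ := Finset.sum_nonneg fun _ _ => norm_nonneg _
  have h5 : ‖(A s₀).eval z‖ ≤ (m : ℝ) ^ k / (n : ℝ) ^ k * (3 ^ k * ‖(E^[k] (flip p)).eval z‖ +
        12 * (m : ℝ) ^ 2 * eps m * (n : ℝ) ^ k * ∑ s ∈ S, ‖(A s).eval z‖) := by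
    have h6 : (m : ℝ) ^ k / (n : ℝ) ^ k * (((n : ℝ) / m) ^ k * ‖(A s₀).eval z‖) =
        ‖(A s₀).eval z‖ := by
      rw [div_pow]
      field_simp
    rw [← h6]
    exact mul_le_mul_of_nonneg_left hmain (by positivity)
  refine h5.trans ?_
  rw [mul_add]
  refine add_le_add ?_ ?_
  · have h6 : (m : ℝ) ^ k / (n : ℝ) ^ k * (3 ^ k * ‖(E^[k] (flip p)).eval z‖) =
        (3 * (m : ℝ)) ^ k * (‖(E^[k] (flip p)).eval z‖ / (n : ℝ) ^ k) := by
      rw [mul_pow]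
      ring
    rw [h6]
    have h7 : (3 * (m : ℝ)) ^ k ≤ (3 * (m : ℝ)) ^ m := pow_le_pow_right₀ (by linarith) hkm
    exact mul_le_mul_of_nonneg_right h7 (by positivity)
  · have h6 : (m : ℝ) ^ k / (n : ℝ) ^ k * (12 * (m : ℝ) ^ 2 * eps m * (n : ℝ) ^ k *
        ∑ s ∈ S, ‖(A s).eval z‖) = 12 * (m : ℝ) ^ (k + 2) * eps m * ∑ s ∈ S, ‖(A s).eval z‖ := by
      rw [pow_add]
      field_simp
    rw [h6]
    have h7 : (m : ℝ) ^ (k + 2) ≤ (m : ℝ) ^ (m + 2) := pow_le_pow_right₀ hm0 (by omega)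
    gcongr

/-- far from the roots of the blocks the blocks are bounded by one derivative of the flip -/
theorem good {m : ℕ} (hm : 1 ≤ m) (S : Finset ℕ) (A : ℕ → ℂ[X]) {p : ℂ[X]}
    (hp : p = ∑ s ∈ S, X ^ s * A s) (_hS : S.Nonempty) {n : ℕ} (hn : p.natDegree = n)
    (hn1 : 1 ≤ n) (hcard : S.card ≤ m + 1) (hSn : ∀ s ∈ S, s ≤ n)
    (hgap : ∀ s ∈ S, ∀ t ∈ S, s ≠ t → (n : ℝ) ≤ m * |(s : ℝ) - t|)
    (hbig : 1 ≤ eps m * n) {z : ℂ} (hz : ‖z‖ = 1)
    (h0 : ∀ s ∈ S, ∀ b ∈ (A s).roots, z ≠ b)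
    (hT : ∀ s ∈ S, ((A s).roots.map fun b => ‖z - b‖⁻¹).sum ≤ eps m * n) :
    ∑ s ∈ S, ‖(A s).eval z‖ ≤
      2 * (m + 1) * (3 * m) ^ m *
        (‖(E^[S.card - 1] (flip p)).eval z‖ / (n : ℝ) ^ (S.card - 1)) := by
  have h1 := Finset.sum_le_sum fun s₀ hs₀ =>
    good_one hm S A hp hn hn1 hcard hSn hgap hbig hz h0 hT s₀ hs₀
  rw [Finset.sum_const, nsmul_eq_mul] at h1
  have hm0 : (1 : ℝ) ≤ m := by exact_mod_cast hm
  have he := eps_pos hm
  have hY : 0 ≤ ∑ s ∈ S, ‖(A s).eval z‖ := Finset.sum_nonneg fun _ _ => norm_nonneg _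
  have hc : (S.card : ℝ) ≤ m + 1 := by exact_mod_cast hcard
  have h2 : (S.card : ℝ) * ((3 * m) ^ m *
        (‖(E^[S.card - 1] (flip p)).eval z‖ / (n : ℝ) ^ (S.card - 1)) +
      12 * (m : ℝ) ^ (m + 2) * eps m * ∑ s ∈ S, ‖(A s).eval z‖) ≤
      (m + 1) * ((3 * m) ^ m *
        (‖(E^[S.card - 1] (flip p)).eval z‖ / (n : ℝ) ^ (S.card - 1)) +
      12 * (m : ℝ) ^ (m + 2) * eps m * ∑ s ∈ S, ‖(A s).eval z‖) := by
    refine mul_le_mul_of_nonneg_right hc ?_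
    positivity
  have h3 := h1.trans h2
  have h4 := eps_mul hm
  have h5 : ((m : ℝ) + 1) * (12 * (m : ℝ) ^ (m + 2) * eps m * ∑ s ∈ S, ‖(A s).eval z‖) =
      (∑ s ∈ S, ‖(A s).eval z‖) / 2 := by
    linear_combination (∑ s ∈ S, ‖(A s).eval z‖) / 2 * h4
  rw [mul_add, h5] at h3
  linarith

end Pool.Agent.GAP
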