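import Pool.Agent.GAP.Defs

open Polynomial MeasureTheory Pool.Agent.H27Mahler

namespace Pool.Agent.GAP

private theorem pt_coe (x : ℝ) : pt (x : UnitAddCircle) = Complex.exp ((2 * Real.pi * x : ℝ) * Complex.I) := by
  show ((AddCircle.toCircle (x : UnitAddCircle) : Circle) : ℂ) = _
  rw [AddCircle.toCircle_apply_mk, Circle.coe_exp]
  norm_num

private theorem pt_add (σ τ : UnitAddCircle) : pt (σ + τ) = pt σ * pt τ := by
  simp [pt, AddCircle.toCircle_add]

private theorem norm_pt (τ : UnitAddCircle) : ‖pt τ‖ = 1 := Circle.norm_coe _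

private theorem pt_sub_one {x : ℝ} (hx : |x| ≤ 1 / 2) : 4 * |x| ≤ ‖pt (x : UnitAddCircle) - 1‖ := by
  have h1 : pt (x : UnitAddCircle) = Complex.exp (Complex.I * ((2 * Real.pi * x : ℝ) : ℂ)) := by
    rw [pt_coe, mul_comm]
  rw [h1, Complex.norm_exp_I_mul_ofReal_sub_one]
  have h2 : (2 * Real.pi * x) / 2 = Real.pi * x := by ring
  rw [h2, norm_mul, Real.norm_eq_abs, Real.norm_eq_abs, abs_two]
  have h3 : |Real.sin (Real.pi * x)| = Real.sin (Real.pi * |x|) := by
    rcases abs_cases x with ⟨h, h0⟩ | ⟨h, h0⟩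
    · rw [h, abs_of_nonneg]
      refine Real.sin_nonneg_of_nonneg_of_le_pi (by positivity) ?_
      nlinarith [Real.pi_pos, abs_of_nonneg h0]
    · rw [h, mul_neg, Real.sin_neg, ← abs_neg, ← Real.sin_neg, abs_of_nonneg]
      refine Real.sin_nonneg_of_nonneg_of_le_pi ?_ ?_
      · nlinarith [Real.pi_pos]
      · nlinarith [Real.pi_pos]
  rw [h3]
  have h4 := Real.mul_le_sin (x := Real.pi * |x|) (by positivity)
    (by nlinarith [Real.pi_pos, abs_nonneg x])
  have h5 : 2 / Real.pi * (Real.pi * |x|) = 2 * |x| := by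
    field_simp
  linarith

/-- the distance to a point of the plane -/
private theorem exists_shift (b : ℂ) :
    ∃ θ : UnitAddCircle, ∀ x : ℝ, |x| ≤ 1 / 2 → 2 * |x| ≤ ‖pt ((x : UnitAddCircle) + θ) - b‖ := by
  rcases eq_or_ne b 0 with rfl | hb
  · refine ⟨0, fun x hx => ?_⟩
    rw [sub_zero, norm_pt]
    linarith
  · refine ⟨((b.arg / (2 * Real.pi) : ℝ) : UnitAddCircle), fun x hx => ?_⟩
    set θ : UnitAddCircle := ((b.arg / (2 * Real.pi) : ℝ) : UnitAddCircle) with hθ
    have h0 : pt θ = Complex.exp (b.arg * Complex.I) := by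
      rw [hθ, pt_coe]
      congr 2
      have := Real.pi_ne_zero
      push_cast
      field_simp
    have h1 : b = ‖b‖ * pt θ := by rw [h0]; exact (Complex.norm_mul_exp_arg_mul_I b).symm
    have h2 : ‖b - pt θ‖ = |‖b‖ - 1| := by
      have : b - pt θ = ((‖b‖ - 1 : ℝ) : ℂ) * pt θ := by
        conv_lhs => rw [h1]
        push_cast
        ring
      rw [this, norm_mul, norm_pt, mul_one, Complex.norm_real, Real.norm_eq_abs]
    have h3 : |‖b‖ - 1| ≤ ‖pt ((x : UnitAddCircle) + θ) - b‖ := by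
      have := abs_norm_sub_norm_le b (pt ((x : UnitAddCircle) + θ))
      rwa [norm_pt, norm_sub_rev] at this
    have h4 : ‖pt ((x : UnitAddCircle) + θ) - pt θ‖ = ‖pt (x : UnitAddCircle) - 1‖ := by
      rw [pt_add, show pt (x : UnitAddCircle) * pt θ - pt θ = (pt (x : UnitAddCircle) - 1) * pt θ by
        ring, norm_mul, norm_pt, mul_one]
    have h5 := pt_sub_one hx
    have h6 : ‖pt ((x : UnitAddCircle) + θ) - pt θ‖ ≤
        ‖pt ((x : UnitAddCircle) + θ) - b‖ + ‖b - pt θ‖ := by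
      have := norm_add_le (pt ((x : UnitAddCircle) + θ) - b) (b - pt θ)
      simpa using this
    rw [h4] at h6
    rw [h2] at h6
    linarith

private theorem even_int {g : ℝ → ℝ} (hg : IntervalIntegrable g volume 0 (1 / 2)) :
    IntervalIntegrable (fun x => g |x|) volume (-(1 / 2)) (1 / 2) ∧
      ∫ x in (-(1 / 2) : ℝ)..(1 / 2), g |x| = 2 * ∫ x in (0 : ℝ)..(1 / 2), g x := by
  have hle : (0 : ℝ) ≤ 1 / 2 := by norm_num
  have hc : ∀ x ∈ Set.uIoc (0 : ℝ) (1 / 2), g x = g |x| := by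
    intro x hx
    rw [Set.uIoc_of_le hle] at hx
    rw [abs_of_pos hx.1]
  have h1 : IntervalIntegrable (fun x => g |x|) volume 0 (1 / 2) := hg.congr hc
  have h2 : IntervalIntegrable (fun x => g |x|) volume (-(1 / 2)) 0 := by
    have := ((IntervalIntegrable.iff_comp_neg (by simp)).1 h1).symm
    simpa using this
  refine ⟨h2.trans h1, ?_⟩
  rw [← intervalIntegral.integral_add_adjacent_intervals h2 h1]
  have h3 : ∫ x in (0 : ℝ)..(1 / 2), g |x| = ∫ x in (0 : ℝ)..(1 / 2), g x := by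
    refine intervalIntegral.integral_congr fun x hx => ?_
    rw [Set.uIcc_of_le hle] at hx
    simp only [abs_of_nonneg hx.1]
  have h4 : ∫ x in (-(1 / 2) : ℝ)..0, g |x| = ∫ x in (0 : ℝ)..(1 / 2), g |x| := by
    have := intervalIntegral.integral_comp_neg (a := (0 : ℝ)) (b := 1 / 2) (fun x => g |x|)
    simp only [abs_neg, neg_zero] at this
    exact this.symm
  rw [h4, h3]
  ring

/-- transfer to the line -/
private theorem circ {f : UnitAddCircle → ℝ} (hf : Measurable f) (hf0 : ∀ τ, 0 ≤ f τ) {g : ℝ → ℝ}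
    (hg : IntervalIntegrable g volume 0 (1 / 2)) {θ : UnitAddCircle}
    (h : ∀ x : ℝ, x ≠ 0 → |x| ≤ 1 / 2 → f ((x : UnitAddCircle) + θ) ≤ g |x|) :
    Integrable f ∧ ∫ τ, f τ ≤ 2 * ∫ x in (0 : ℝ)..(1 / 2), g x := by
  obtain ⟨e1, e2⟩ := even_int hg
  have hle : (-(1 / 2) : ℝ) ≤ 1 / 2 := by norm_num
  have hm : Measurable fun τ => f (τ + θ) := hf.comp (measurable_add_const θ)
  have hae : ∀ᵐ x : ℝ ∂(volume.restrict (Set.Ioc (-(1 / 2) : ℝ) (1 / 2))),
      f ((x : UnitAddCircle) + θ) ≤ g |x| := by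
    rw [ae_restrict_iff' measurableSet_Ioc]
    have h0 : ∀ᵐ x : ℝ, x ≠ 0 := by
      rw [ae_iff]
      simp
    filter_upwards [h0] with x hx hI
    exact h x hx (abs_le.2 ⟨hI.1.le, hI.2⟩)
  have hmp := UnitAddCircle.measurePreserving_mk (-(1 / 2))
  have hone : (-(1 / 2) : ℝ) + 1 = 1 / 2 := by norm_num
  rw [hone] at hmp
  have hI1 : Integrable (fun x : ℝ => f ((x : UnitAddCircle) + θ))
      (volume.restrict (Set.Ioc (-(1 / 2) : ℝ) (1 / 2))) := by
    have hgI := (intervalIntegrable_iff_integrableOn_Ioc_of_le hle).1 e1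
    refine Integrable.mono' hgI ?_ ?_
    · exact (hm.comp hmp.measurable).aestronglyMeasurable
    · filter_upwards [hae] with x hx
      rw [Real.norm_of_nonneg (hf0 _)]
      exact hx
  have hI2 : Integrable (fun τ => f (τ + θ)) :=
    (hmp.integrable_comp hm.aestronglyMeasurable).1 hI1
  have hI3 : Integrable f := by
    have := hI2.comp_add_right (-θ)
    simpa using this
  refine ⟨hI3, ?_⟩
  rw [← integral_add_right_eq_self f θ, ← UnitAddCircle.intervalIntegral_preimage (-(1 / 2)), hone,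
    ← e2, intervalIntegral.integral_of_le hle, intervalIntegral.integral_of_le hle]
  exact integral_mono_ae hI1 ((intervalIntegrable_iff_integrableOn_Ioc_of_le hle).1 e1) hae

private theorem continuous_pt : Continuous pt := by
  unfold pt
  exact continuous_subtype_val.comp AddCircle.continuous_toCircle

private theorem half (a : ℂ) :
    Integrable (fun τ : UnitAddCircle => ‖pt τ - a‖ ^ (-(1 / 2) : ℝ)) ∧
      ∫ τ : UnitAddCircle, ‖pt τ - a‖ ^ (-(1 / 2) : ℝ) ≤ 2 := by
  obtain ⟨θ, hθ⟩ := exists_shift a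
  have hg : IntervalIntegrable (fun x : ℝ => (2 * x) ^ (-(1 / 2) : ℝ)) volume 0 (1 / 2) := by
    have h1 : IntervalIntegrable (fun x : ℝ => x ^ (-(1 / 2) : ℝ)) volume 0 1 :=
      intervalIntegral.intervalIntegrable_rpow' (by norm_num)
    have h2 := h1.comp_mul_left (c := 2)
    simpa using h2
  have hv : ∫ x in (0 : ℝ)..(1 / 2), (2 * x) ^ (-(1 / 2) : ℝ) = 1 := by
    rw [intervalIntegral.integral_comp_mul_left (fun x : ℝ => x ^ (-(1 / 2) : ℝ)) (by norm_num : (2 : ℝ) ≠ 0),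
      integral_rpow (Or.inl (by norm_num))]
    norm_num
  have := circ (f := fun τ : UnitAddCircle => ‖pt τ - a‖ ^ (-(1 / 2) : ℝ))
    (((continuous_pt.sub continuous_const).norm.measurable).pow_const _)
    (fun τ => by positivity) hg (θ := θ) fun x hx hx2 =>
      Real.rpow_le_rpow_of_nonpos (by positivity) (hθ x hx2) (by norm_num)
  rw [hv] at this
  exact ⟨this.1, by linarith [this.2]⟩

private theorem trunc {δ : ℝ} (hδ : 0 < δ) (b : ℂ) :
    Integrable (fun τ : UnitAddCircle => (max ‖pt τ - b‖ δ)⁻¹) ∧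
      (δ ≤ 1 → ∫ τ : UnitAddCircle, (max ‖pt τ - b‖ δ)⁻¹ ≤ 1 + Real.log (1 / δ)) := by
  obtain ⟨θ, hθ⟩ := exists_shift b
  have hcont : Continuous fun x : ℝ => (max x δ)⁻¹ :=
    (continuous_id.max continuous_const).inv₀ fun x => (lt_of_lt_of_le hδ (le_max_right _ _)).ne'
  have hg : IntervalIntegrable (fun x : ℝ => (max (2 * x) δ)⁻¹) volume 0 (1 / 2) :=
    (hcont.comp (continuous_const.mul continuous_id)).intervalIntegrable _ _
  have := circ (f := fun τ : UnitAddCircle => (max ‖pt τ - b‖ δ)⁻¹)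
    ((hcont.comp (continuous_pt.sub continuous_const).norm).measurable)
    (fun τ => by positivity) hg (θ := θ) fun x hx hx2 =>
      inv_anti₀ (lt_of_lt_of_le hδ (le_max_right _ _)) (max_le_max (hθ x hx2) le_rfl)
  refine ⟨this.1, fun hδ1 => this.2.trans (le_of_eq ?_)⟩
  rw [intervalIntegral.integral_comp_mul_left (fun x : ℝ => (max x δ)⁻¹) (by norm_num : (2 : ℝ) ≠ 0)]
  have e : (2 : ℝ) * (1 / 2) = 1 := by norm_num
  rw [e, mul_zero, ← intervalIntegral.integral_add_adjacent_intervals (b := δ)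
    (hcont.intervalIntegrable _ _) (hcont.intervalIntegrable _ _)]
  have h1 : ∫ x in (0 : ℝ)..δ, (max x δ)⁻¹ = 1 := by
    rw [intervalIntegral.integral_congr (g := fun _ => δ⁻¹)]
    · simp [hδ.ne']
    · intro x hx
      rw [Set.uIcc_of_le hδ.le] at hx
      simp [max_eq_right hx.2]
  have h2 : ∫ x in δ..(1 : ℝ), (max x δ)⁻¹ = Real.log (1 / δ) := by
    rw [← integral_inv_of_pos hδ one_pos]
    refine intervalIntegral.integral_congr fun x hx => ?_
    rw [Set.uIcc_of_le hδ1] at hx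
    simp [max_eq_left hx.1]
  rw [h1, h2, smul_eq_mul]
  ring

theorem integrable_half (a : ℂ) :
    Integrable (fun τ : UnitAddCircle => ‖pt τ - a‖ ^ (-(1 / 2) : ℝ)) := (half a).1

theorem integral_half_le (a : ℂ) :
    ∫ τ : UnitAddCircle, ‖pt τ - a‖ ^ (-(1 / 2) : ℝ) ≤ 2 := (half a).2

theorem integrable_trunc {δ : ℝ} (hδ : 0 < δ) (b : ℂ) :
    Integrable (fun τ : UnitAddCircle => (max ‖pt τ - b‖ δ)⁻¹) := (trunc hδ b).1

theorem integral_trunc_le {δ : ℝ} (hδ : 0 < δ) (hδ1 : δ ≤ 1) (b : ℂ) :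
    ∫ τ : UnitAddCircle, (max ‖pt τ - b‖ δ)⁻¹ ≤ 1 + Real.log (1 / δ) := (trunc hδ b).2 hδ1

end Pool.Agent.GAP
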