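import Pool.Agent.GAP.A04Good
import Pool.Agent.GAP.A05Ker

open Polynomial MeasureTheory Pool.Agent.H27Mahler

namespace Pool.Agent.GAP

theorem ms_int (s : Multiset ℂ) (f : ℂ → UnitAddCircle → ℝ) (hf : ∀ a, Integrable (f a))
    {B : ℝ} (hB : ∀ a, ∫ τ, f a τ ≤ B) :
    Integrable (fun τ => (s.map fun a => f a τ).sum) ∧
      ∫ τ, (s.map fun a => f a τ).sum ≤ s.card * B := by
  induction s using Multiset.induction_on with
  | empty => simp
  | cons a s ih =>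
    have h1 : (fun τ => ((a ::ₘ s).map fun a => f a τ).sum) =
        fun τ => f a τ + (s.map fun a => f a τ).sum := by
      funext τ
      rw [Multiset.map_cons, Multiset.sum_cons]
    rw [h1]
    refine ⟨(hf a).add ih.1, ?_⟩
    rw [integral_add (hf a) ih.1, Multiset.card_cons]
    push_cast
    have := hB a
    have := ih.2
    linarith

section blocks

variable {S : Finset ℕ} {A : ℕ → ℂ[X]} {p : ℂ[X]} {d : ℕ}

theorem coeff_blk (hp : p = ∑ s ∈ S, X ^ s * A s) (hd : ∀ s ∈ S, (A s).natDegree ≤ d)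
    (hdis : ∀ s ∈ S, ∀ t ∈ S, s ≠ t → s + d < t ∨ t + d < s) {s j : ℕ} (hs : s ∈ S)
    (hj : j ≤ d) : p.coeff (s + j) = (A s).coeff j := by
  rw [hp, finsetSum_coeff, Finset.sum_eq_single s]
  · rw [add_comm s j, coeff_X_pow_mul]
  · intro t ht hts
    rw [coeff_X_pow_mul']
    split_ifs with h
    · apply coeff_eq_zero_of_natDegree_lt
      have := hd t ht
      rcases hdis t ht s hs hts with h1 | h1
      · omega
      · omega
    · rfl
  · intro h
    exact absurd hs h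

theorem card_supp (hp : p = ∑ s ∈ S, X ^ s * A s) (hd : ∀ s ∈ S, (A s).natDegree ≤ d) :
    p.support.card ≤ S.card * (d + 1) := by
  have h1 : p.support ⊆ S.biUnion fun s => (Finset.range (d + 1)).image fun j => s + j := by
    intro j hj
    rw [mem_support_iff, hp, finsetSum_coeff] at hj
    obtain ⟨s, hs, h⟩ := Finset.exists_ne_zero_of_sum_ne_zero hj
    rw [coeff_X_pow_mul'] at h
    split_ifs at h with hle
    · have h2 := le_natDegree_of_ne_zero h
      have h3 := hd s hs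
      rw [Finset.mem_biUnion]
      refine ⟨s, hs, ?_⟩
      rw [Finset.mem_image]
      exact ⟨j - s, Finset.mem_range.mpr (by omega), by omega⟩
    · exact absurd rfl h
  refine (Finset.card_le_card h1).trans ?_
  refine (Finset.card_biUnion_le).trans ?_
  refine (Finset.sum_le_card_nsmul S _ (d + 1) fun s _ => ?_).trans ?_
  · exact (Finset.card_image_le).trans (by simp)
  · simp

theorem sum_le_blk (hp : p = ∑ s ∈ S, X ^ s * A s) (hd : ∀ s ∈ S, (A s).natDegree ≤ d)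
    (hdis : ∀ s ∈ S, ∀ t ∈ S, s ≠ t → s + d < t ∨ t + d < s) {z : ℂ} (hz : ‖z‖ = 1) {B : ℝ}
    (hB : ∀ j, ‖p.coeff j‖ ≤ B) :
    ∑ s ∈ S, ‖(A s).eval z‖ ≤ (S.card * (d + 1) : ℕ) * B := by
  have h1 : ∀ s ∈ S, ‖(A s).eval z‖ ≤ (d + 1 : ℕ) * B := by
    intro s hs
    rw [eval_eq_sum_range' (Nat.lt_succ_of_le (hd s hs))]
    refine (norm_sum_le _ _).trans ?_
    have h2 : ∀ j ∈ Finset.range (d + 1), ‖(A s).coeff j * z ^ j‖ ≤ B := by
      intro j hj
      rw [norm_mul, norm_pow, hz, one_pow, mul_one,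
        ← coeff_blk hp hd hdis hs (Nat.lt_succ_iff.mp (Finset.mem_range.mp hj))]
      exact hB _
    refine (Finset.sum_le_card_nsmul _ _ _ h2).trans ?_
    rw [Finset.card_range, nsmul_eq_mul]
  refine (Finset.sum_le_card_nsmul _ _ _ h1).trans ?_
  rw [nsmul_eq_mul]
  push_cast
  apply le_of_eq
  ring

end blocks

theorem disj_of_gap {m n d : ℕ} {S : Finset ℕ}
    (hgap : ∀ s ∈ S, ∀ t ∈ S, s ≠ t → (n : ℝ) ≤ m * |(s : ℝ) - t|) (hmd : m * d < n) :
    ∀ s ∈ S, ∀ t ∈ S, s ≠ t → s + d < t ∨ t + d < s := by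
  intro s hs t ht hst
  by_contra hcon
  push Not at hcon
  have h1 := hgap s hs t ht hst
  have h2 : |(s : ℝ) - t| ≤ d := by
    rw [abs_le]
    have h3 : (t : ℝ) ≤ s + d := by exact_mod_cast hcon.1
    have h4 : (s : ℝ) ≤ t + d := by exact_mod_cast hcon.2
    constructor <;> linarith
  have h5 : (n : ℝ) ≤ m * d := h1.trans (mul_le_mul_of_nonneg_left h2 (Nat.cast_nonneg m))
  have h6 : n ≤ m * d := by exact_mod_cast h5
  omega

theorem ker_nonneg (δ : ℝ) (A : ℂ[X]) (z : ℂ) : 0 ≤ ker δ A z := by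
  unfold ker
  apply Multiset.sum_nonneg
  intro x hx
  obtain ⟨b, -, rfl⟩ := Multiset.mem_map.mp hx
  exact inv_nonneg.mpr ((norm_nonneg _).trans (le_max_left _ _))

/-- if the truncated kernel is smaller than `1 / δ` the truncation is inactive -/
theorem ker_eq {δ : ℝ} (hδ : 0 < δ) {A : ℂ[X]} {z : ℂ} (h : ker δ A z < δ⁻¹) :
    (∀ b ∈ A.roots, z ≠ b) ∧ (A.roots.map fun b => ‖z - b‖⁻¹).sum = ker δ A z := by
  have h1 : ∀ b ∈ A.roots, δ < ‖z - b‖ := by
    intro b hb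
    by_contra hcon
    push Not at hcon
    have h2 : (max ‖z - b‖ δ)⁻¹ ≤ ker δ A z := by
      unfold ker
      apply Multiset.single_le_sum _ _ (Multiset.mem_map_of_mem _ hb)
      intro x hx
      obtain ⟨b, -, rfl⟩ := Multiset.mem_map.mp hx
      exact inv_nonneg.mpr ((norm_nonneg _).trans (le_max_left _ _))
    rw [max_eq_right hcon] at h2
    linarith
  constructor
  · intro b hb hzb
    have := h1 b hb
    rw [hzb, sub_self, norm_zero] at this
    linarith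
  · unfold ker
    congr 1
    apply Multiset.map_congr rfl
    intro b hb
    rw [max_eq_left (h1 b hb).le]

theorem integral_ker {δ : ℝ} (hδ : 0 < δ) (hδ1 : δ ≤ 1) (A : ℂ[X]) :
    Integrable (fun τ : UnitAddCircle => ker δ A (pt τ)) ∧
      ∫ τ : UnitAddCircle, ker δ A (pt τ) ≤ A.natDegree * (1 + Real.log (1 / δ)) := by
  have h := ms_int A.roots (fun b τ => (max ‖pt τ - b‖ δ)⁻¹) (fun b => integrable_trunc hδ b)
    (fun b => integral_trunc_le hδ hδ1 b)
  refine ⟨h.1, h.2.trans ?_⟩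
  have h1 : (A.roots.card : ℝ) ≤ A.natDegree := by exact_mod_cast A.card_roots'
  have h2 : 0 ≤ 1 + Real.log (1 / δ) := by
    have : 0 ≤ Real.log (1 / δ) := Real.log_nonneg (by rw [le_div_iff₀ hδ]; linarith)
    linarith
  exact mul_le_mul_of_nonneg_right h1 h2

theorem integral_half_roots (G : ℂ[X]) :
    Integrable (fun τ : UnitAddCircle => (G.roots.map fun a => ‖pt τ - a‖ ^ (-(1 / 2) : ℝ)).sum) ∧
      ∫ τ : UnitAddCircle, (G.roots.map fun a => ‖pt τ - a‖ ^ (-(1 / 2) : ℝ)).sum ≤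
        G.natDegree * 2 := by
  have h := ms_int G.roots (fun a τ => ‖pt τ - a‖ ^ (-(1 / 2) : ℝ)) integrable_half
    integral_half_le
  refine ⟨h.1, h.2.trans ?_⟩
  have h1 : (G.roots.card : ℝ) ≤ G.natDegree := by exact_mod_cast G.card_roots'
  linarith

theorem half_roots_nonneg (G : ℂ[X]) (z : ℂ) :
    0 ≤ (G.roots.map fun a => ‖z - a‖ ^ (-(1 / 2) : ℝ)).sum := by
  apply Multiset.sum_nonneg
  intro x hx
  obtain ⟨b, -, rfl⟩ := Multiset.mem_map.mp hx
  exact Real.rpow_nonneg (norm_nonneg _) _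

/-- the crude constant -/
noncomputable def lam0 (M n : ℕ) : ℝ := Real.log M + M * Real.log 3 + 5 * M * Real.log n

theorem lam0_nonneg (M : ℕ) {n : ℕ} (_ : 1 ≤ n) : 0 ≤ lam0 M n := by
  unfold lam0
  have h1 : 0 ≤ Real.log M := Real.log_natCast_nonneg M
  have h2 : 0 ≤ Real.log 3 := Real.log_nonneg (by norm_num)
  have h3 : 0 ≤ Real.log n := Real.log_natCast_nonneg n
  positivity

theorem a6_eps_pos {m : ℕ} (hm : 1 ≤ m) : 0 < eps m := by
  unfold eps
  have : (0 : ℝ) < m := by exact_mod_cast hm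
  positivity

theorem a6_eps_le_one {m : ℕ} (hm : 1 ≤ m) : eps m ≤ 1 := by
  unfold eps
  have h0 : (1 : ℝ) ≤ m := by exact_mod_cast hm
  have h1 : (1 : ℝ) ≤ (m : ℝ) ^ (m + 2) := one_le_pow₀ h0
  rw [div_le_one (by positivity)]
  nlinarith

theorem pointwise {m : ℕ} (hm : 1 ≤ m) {S : Finset ℕ} {A : ℕ → ℂ[X]} {p : ℂ[X]} {n d : ℕ}
    (hp : p = ∑ s ∈ S, X ^ s * A s) (hn : p.natDegree = n) (hn2 : 2 ≤ n)
    (hcard : S.card ≤ m + 1) (hSn : ∀ s ∈ S, s ≤ n)
    (hgap : ∀ s ∈ S, ∀ t ∈ S, s ≠ t → (n : ℝ) ≤ m * |(s : ℝ) - t|)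
    (hd : ∀ s ∈ S, (A s).natDegree ≤ d) (hmd : m * d < n) (hbig : 1 ≤ eps m * n)
    {z : ℂ} (hz : ‖z‖ = 1) (hG : ∀ r, (E^[r] (flip p)).eval z ≠ 0)
    (hY : ∑ s ∈ S, ‖(A s).eval z‖ ≠ 0) :
    Real.log (∑ s ∈ S, ‖(A s).eval z‖) ≤
      Real.log (2 * (m + 1) * (3 * m) ^ m) +
        (Real.log ‖(E^[S.card - 1] (flip p)).eval z‖ - (S.card - 1 : ℕ) * Real.log n) +
      lam0 ((m + 1) * (d + 1)) n * ((eps m * n)⁻¹ * ∑ s ∈ S, ker ((n : ℝ) ^ 3)⁻¹ (A s) z) +
      (n : ℝ) ^ (-(3 / 2) : ℝ) * ∑ i ∈ Finset.range ((m + 1) * (d + 1)),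
          ((E^[i] (flip p)).roots.map fun a => ‖z - a‖ ^ (-(1 / 2) : ℝ)).sum := by
  have hp0 : p ≠ 0 := by
    rintro rfl
    rw [natDegree_zero] at hn
    omega
  have hS : S.Nonempty := by
    rw [Finset.nonempty_iff_ne_empty]
    rintro rfl
    simp only [Finset.sum_empty] at hp
    exact hp0 hp
  have hnR : (2 : ℝ) ≤ n := by exact_mod_cast hn2
  have hn0 : (0 : ℝ) < n := by linarith
  have hδ : (0 : ℝ) < ((n : ℝ) ^ 3)⁻¹ := by positivity
  have he := a6_eps_pos hm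
  have hen : 0 < eps m * n := mul_pos he hn0
  have hYp : 0 < ∑ s ∈ S, ‖(A s).eval z‖ :=
    lt_of_le_of_ne (Finset.sum_nonneg fun _ _ => norm_nonneg _) (Ne.symm hY)
  have hker : ∀ s ∈ S, 0 ≤ ker ((n : ℝ) ^ 3)⁻¹ (A s) z := fun s _ => ker_nonneg _ _ _
  have hmR : (1 : ℝ) ≤ m := by exact_mod_cast hm
  have hlog3 : 0 ≤ Real.log n := Real.log_natCast_nonneg n
  have hR0 : 0 ≤ (n : ℝ) ^ (-(3 / 2) : ℝ) * ∑ i ∈ Finset.range ((m + 1) * (d + 1)),
      ((E^[i] (flip p)).roots.map fun a => ‖z - a‖ ^ (-(1 / 2) : ℝ)).sum :=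
    mul_nonneg (Real.rpow_nonneg hn0.le _) (Finset.sum_nonneg fun _ _ => half_roots_nonneg _ _)
  have hHk : 0 < ‖(E^[S.card - 1] (flip p)).eval z‖ := norm_pos_iff.mpr (hG _)
  have hK1 : (1 : ℝ) ≤ 2 * (m + 1) * (3 * m) ^ m := by
    have : (1 : ℝ) ≤ (3 * m : ℝ) ^ m := one_le_pow₀ (by linarith)
    nlinarith
  by_cases hW : (eps m * n)⁻¹ * ∑ s ∈ S, ker ((n : ℝ) ^ 3)⁻¹ (A s) z ≤ 1
  · -- far from the roots
    have h1 : ∑ s ∈ S, ker ((n : ℝ) ^ 3)⁻¹ (A s) z ≤ eps m * n := by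
      rw [inv_mul_le_iff₀ hen, mul_one] at hW
      exact hW
    have h2 : ∀ s ∈ S, ker ((n : ℝ) ^ 3)⁻¹ (A s) z ≤ eps m * n := fun s hs =>
      (Finset.single_le_sum hker hs).trans h1
    have h3 : eps m * n < (((n : ℝ) ^ 3)⁻¹)⁻¹ := by
      rw [inv_inv]
      have := a6_eps_le_one hm
      nlinarith [mul_pos hn0 hn0, mul_le_mul_of_nonneg_right this hn0.le,
        mul_pos (mul_pos hn0 hn0) hn0]
    have h4 : ∀ s ∈ S, (∀ b ∈ (A s).roots, z ≠ b) ∧
        ((A s).roots.map fun b => ‖z - b‖⁻¹).sum = ker ((n : ℝ) ^ 3)⁻¹ (A s) z :=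
      fun s hs => ker_eq hδ ((h2 s hs).trans_lt h3)
    have h5 := good hm S A hp hS hn (by omega) hcard hSn hgap hbig hz
      (fun s hs => (h4 s hs).1) (fun s hs => by rw [(h4 s hs).2]; exact h2 s hs)
    have h6 : Real.log (∑ s ∈ S, ‖(A s).eval z‖) ≤ Real.log (2 * (m + 1) * (3 * m) ^ m) +
        (Real.log ‖(E^[S.card - 1] (flip p)).eval z‖ - (S.card - 1 : ℕ) * Real.log n) := by
      refine (Real.log_le_log hYp h5).trans (le_of_eq ?_)
      rw [Real.log_mul (by positivity) (by positivity), Real.log_div hHk.ne' (by positivity),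
        Real.log_pow]
    have h7 : 0 ≤ lam0 ((m + 1) * (d + 1)) n *
        ((eps m * n)⁻¹ * ∑ s ∈ S, ker ((n : ℝ) ^ 3)⁻¹ (A s) z) :=
      mul_nonneg (lam0_nonneg _ (by omega))
        (mul_nonneg (inv_nonneg.mpr hen.le) (Finset.sum_nonneg hker))
    linarith
  · -- near the roots
    push Not at hW
    set M0 := (m + 1) * (d + 1) with hM0
    have hM01 : 1 ≤ M0 := Nat.succ_le_of_lt (Nat.mul_pos (by omega) (by omega))
    have hcs : p.support.card ≤ M0 := (card_supp hp hd).trans (Nat.mul_le_mul_right _ hcard)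
    have hcr : ∀ j, ‖p.coeff j‖ ≤ 3 ^ M0 * ‖(E^[M0] (flip p)).eval z‖ :=
      fun j => crude (by omega) hcs hz j
    have hHM : 0 < ‖(E^[M0] (flip p)).eval z‖ := norm_pos_iff.mpr (hG _)
    have h1 := sum_le_blk hp hd (disj_of_gap hgap hmd) hz hcr
    have h2 : ∑ s ∈ S, ‖(A s).eval z‖ ≤ (M0 : ℝ) * (3 ^ M0 * ‖(E^[M0] (flip p)).eval z‖) := by
      refine h1.trans (mul_le_mul_of_nonneg_right ?_ (by positivity))
      exact_mod_cast Nat.mul_le_mul_right _ hcard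
    have hM0R : (0 : ℝ) < M0 := by exact_mod_cast hM01
    have h3 : Real.log (∑ s ∈ S, ‖(A s).eval z‖) ≤ Real.log M0 + M0 * Real.log 3 +
        Real.log ‖(E^[M0] (flip p)).eval z‖ := by
      refine (Real.log_le_log hYp h2).trans (le_of_eq ?_)
      rw [Real.log_mul hM0R.ne' (by positivity), Real.log_mul (by positivity) hHM.ne',
        Real.log_pow]
      ring
    have hkM : S.card - 1 ≤ M0 := by
      have : m + 1 ≤ M0 := Nat.le_mul_of_pos_right _ (by omega)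
      omega
    have h4 := steps_upper (n := n) (G := flip p) (by omega) (by rw [natDegree_flip hp0, hn])
      (by
        intro a ha
        rw [roots_flip hp0] at ha
        obtain ⟨b, -, rfl⟩ := Multiset.mem_map.mp ha
        exact norm_rt_le b) hz hG hkM
    have h5 : lam0 M0 n ≤ lam0 M0 n *
        ((eps m * n)⁻¹ * ∑ s ∈ S, ker ((n : ℝ) ^ 3)⁻¹ (A s) z) :=
      le_mul_of_one_le_right (lam0_nonneg _ (by omega)) hW.le
    have h6 : ((S.card - 1 : ℕ) : ℝ) * Real.log n ≤ M0 * Real.log n :=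
      mul_le_mul_of_nonneg_right (by exact_mod_cast hkM) hlog3
    have h7 : 0 ≤ Real.log (2 * (m + 1) * (3 * m) ^ m) := Real.log_nonneg hK1
    have h8 : lam0 M0 n = Real.log M0 + M0 * Real.log 3 + 5 * M0 * Real.log n := rfl
    linarith

/-- numerical bounds for large `n` -/
theorem lam0_le (M : ℕ) {n : ℕ} (hlog : 1 ≤ Real.log n) : lam0 M n ≤ 8 * M * Real.log n := by
  unfold lam0
  have h1 : Real.log M ≤ M := by
    rcases Nat.eq_zero_or_pos M with rfl | h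
    · simp
    · have h2 : (0 : ℝ) < M := by exact_mod_cast h
      have := Real.log_le_sub_one_of_pos h2
      linarith
  have h3 : Real.log 3 ≤ 2 := by
    have := Real.log_le_sub_one_of_pos (show (0 : ℝ) < 3 by norm_num)
    linarith
  have h4 : (0 : ℝ) ≤ M := Nat.cast_nonneg M
  nlinarith [mul_le_mul_of_nonneg_left h3 h4, mul_le_mul_of_nonneg_left hlog h4]

theorem rpow_half {n : ℕ} (hn : 1 ≤ n) :
    (n : ℝ) ^ (-(3 / 2) : ℝ) * n = (Real.sqrt n)⁻¹ := by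
  have hn0 : (0 : ℝ) < n := by exact_mod_cast hn
  rw [Real.sqrt_eq_rpow, ← Real.rpow_neg hn0.le]
  nth_rewrite 2 [← Real.rpow_one (n : ℝ)]
  rw [← Real.rpow_add hn0]
  norm_num

theorem int4 {F₁ F₂ F₃ : UnitAddCircle → ℝ} (h₁ : Integrable F₁) (h₂ : Integrable F₂)
    (h₃ : Integrable F₃) (a b c e g : ℝ) :
    Integrable (fun τ => a + (F₁ τ - b) + c * (e * F₂ τ) + g * F₃ τ) ∧
      ∫ τ, (a + (F₁ τ - b) + c * (e * F₂ τ) + g * F₃ τ) =
        a + ((∫ τ, F₁ τ) - b) + c * (e * ∫ τ, F₂ τ) + g * ∫ τ, F₃ τ := by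
  have ha : Integrable (fun _ : UnitAddCircle => a) := integrable_const _
  have hb : Integrable (fun _ : UnitAddCircle => b) := integrable_const _
  have h4 : Integrable (fun τ => F₁ τ - b) := h₁.sub hb
  have h5 : Integrable (fun τ => a + (F₁ τ - b)) := ha.add h4
  have h6 : Integrable (fun τ => c * (e * F₂ τ)) := (h₂.const_mul e).const_mul c
  have h7 : Integrable (fun τ => a + (F₁ τ - b) + c * (e * F₂ τ)) := h5.add h6
  have h8 : Integrable (fun τ => g * F₃ τ) := h₃.const_mul g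
  refine ⟨h7.add h8, ?_⟩
  rw [integral_add h7 h8, integral_add h5 h6, integral_add ha h4, integral_sub h₁ hb,
    integral_const_mul, integral_const_mul, integral_const_mul, integral_const, integral_const]
  have h9 : (volume : Measure UnitAddCircle).real Set.univ = 1 := by
    simp [Measure.real]
  rw [h9, one_smul, one_smul]

/-- the one-variable inequality -/
theorem one_var (m : ℕ) (hm : 1 ≤ m) : ∃ (C : ℝ) (n₀ : ℕ), 0 ≤ C ∧
    ∀ (S : Finset ℕ) (A : ℕ → ℂ[X]) (p : ℂ[X]) (n d : ℕ), p = ∑ s ∈ S, X ^ s * A s →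
    p.natDegree = n → n₀ ≤ n → S.card ≤ m + 1 → (∀ s ∈ S, s ≤ n) →
    (∀ s ∈ S, ∀ t ∈ S, s ≠ t → (n : ℝ) ≤ m * |(s : ℝ) - t|) →
    (∀ s ∈ S, (A s).natDegree ≤ d) → (d + 1) * Real.log n ≤ Real.sqrt n →
    ∃ Φ : UnitAddCircle → ℝ, Integrable Φ ∧ ∫ τ, Φ τ ≤ p.logMahlerMeasure + C ∧
      ∀ᵐ τ : UnitAddCircle, ∑ s ∈ S, ‖(A s).eval (pt τ)‖ ≠ 0 →
        Real.log (∑ s ∈ S, ‖(A s).eval (pt τ)‖) ≤ Φ τ := by
  have he := a6_eps_pos hm
  have hmR : (1 : ℝ) ≤ m := by exact_mod_cast hm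
  have hK1 : (1 : ℝ) ≤ 2 * (m + 1) * (3 * m) ^ m := by
    have : (1 : ℝ) ≤ (3 * m : ℝ) ^ m := one_le_pow₀ (by linarith)
    nlinarith
  refine ⟨Real.log (2 * (m + 1) * (3 * m) ^ m) + 32 * (m + 1) ^ 2 / eps m + 2 * (m + 1),
    max (max 3 (m ^ 2 + 1)) ⌈1 / eps m⌉₊, ?_, ?_⟩
  · have h1 := Real.log_nonneg hK1
    positivity
  intro S A p n d hp hn hn0 hcard hSn hgap hd hdn
  have h3 : 3 ≤ n := (le_max_left _ _).trans ((le_max_left _ _).trans hn0)
  have hm2 : m ^ 2 + 1 ≤ n := (le_max_right _ _).trans ((le_max_left _ _).trans hn0)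
  have hce : ⌈1 / eps m⌉₊ ≤ n := (le_max_right _ _).trans hn0
  have h3R : (3 : ℝ) ≤ n := by exact_mod_cast h3
  have hnR : (0 : ℝ) < n := by linarith
  have hbig : 1 ≤ eps m * n := by
    have h1 : 1 / eps m ≤ n := (Nat.le_ceil _).trans (by exact_mod_cast hce)
    rw [div_le_iff₀ he] at h1
    linarith
  have hlog : 1 ≤ Real.log n := by
    rw [Real.le_log_iff_exp_le hnR]
    have := Real.exp_one_lt_d9
    linarith
  have hsq0 : 0 < Real.sqrt n := Real.sqrt_pos.mpr hnR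
  have hsq : Real.sqrt n * Real.sqrt n = n := Real.mul_self_sqrt hnR.le
  have hdR : (0 : ℝ) ≤ d := Nat.cast_nonneg d
  have hd1 : (d : ℝ) + 1 ≤ Real.sqrt n := by
    refine le_trans ?_ hdn
    exact le_mul_of_one_le_right (by positivity) hlog
  have hmsq : (m : ℝ) < Real.sqrt n := by
    rw [Real.lt_sqrt (by positivity)]
    have : m ^ 2 < n := by omega
    exact_mod_cast this
  have hmd : m * d < n := by
    have h1 : (m : ℝ) * d < n := by
      rw [← hsq]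
      have : (m : ℝ) * d ≤ m * Real.sqrt n := mul_le_mul_of_nonneg_left (by linarith) (by positivity)
      exact this.trans_lt (mul_lt_mul_of_pos_right hmsq hsq0)
    exact_mod_cast h1
  have hp0 : p ≠ 0 := by
    rintro rfl
    rw [natDegree_zero] at hn
    omega
  have hfn : (flip p).natDegree = n := by rw [natDegree_flip hp0, hn]
  have hdeg : ∀ r, (E^[r] (flip p)).natDegree = n := natDegree_it (by omega) hfn
  have hne : ∀ r, E^[r] (flip p) ≠ 0 := by
    intro r h0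
    have := hdeg r
    rw [h0, natDegree_zero] at this
    omega
  set k := S.card - 1 with hk
  set M0 := (m + 1) * (d + 1) with hM0
  have hδ : (0 : ℝ) < ((n : ℝ) ^ 3)⁻¹ := by positivity
  have hδ1 : ((n : ℝ) ^ 3)⁻¹ ≤ 1 := inv_le_one_of_one_le₀ (one_le_pow₀ (by linarith))
  -- the kernel part
  have hWi : Integrable (fun τ : UnitAddCircle => ∑ s ∈ S, ker ((n : ℝ) ^ 3)⁻¹ (A s) (pt τ)) :=
    integrable_finsetSum _ fun s _ => (integral_ker hδ hδ1 (A s)).1
  have hWv : ∫ τ : UnitAddCircle, ∑ s ∈ S, ker ((n : ℝ) ^ 3)⁻¹ (A s) (pt τ) ≤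
      M0 * (4 * Real.log n) := by
    rw [integral_finsetSum _ fun s _ => (integral_ker hδ hδ1 (A s)).1]
    have h1 : ∀ s ∈ S, ∫ τ : UnitAddCircle, ker ((n : ℝ) ^ 3)⁻¹ (A s) (pt τ) ≤
        (d + 1) * (4 * Real.log n) := by
      intro s hs
      refine (integral_ker hδ hδ1 (A s)).2.trans ?_
      have h2 : Real.log (1 / ((n : ℝ) ^ 3)⁻¹) = 3 * Real.log n := by
        rw [one_div, inv_inv, Real.log_pow]
        norm_num
      rw [h2]
      have h3 : ((A s).natDegree : ℝ) ≤ d + 1 := by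
        have : ((A s).natDegree : ℝ) ≤ d := by exact_mod_cast hd s hs
        linarith
      exact mul_le_mul h3 (by linarith) (by positivity) (by positivity)
    refine (Finset.sum_le_card_nsmul S _ _ h1).trans ?_
    rw [nsmul_eq_mul, hM0]
    push_cast
    have h4 : (S.card : ℝ) ≤ m + 1 := by exact_mod_cast hcard
    rw [mul_assoc ((m : ℝ) + 1)]
    exact mul_le_mul_of_nonneg_right h4 (by positivity)
  -- the half kernels
  have hRi : Integrable (fun τ : UnitAddCircle => ∑ i ∈ Finset.range M0,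
      ((E^[i] (flip p)).roots.map fun a => ‖pt τ - a‖ ^ (-(1 / 2) : ℝ)).sum) :=
    integrable_finsetSum _ fun i _ => (integral_half_roots _).1
  have hRv : ∫ τ : UnitAddCircle, ∑ i ∈ Finset.range M0,
      ((E^[i] (flip p)).roots.map fun a => ‖pt τ - a‖ ^ (-(1 / 2) : ℝ)).sum ≤ M0 * (n * 2) := by
    rw [integral_finsetSum _ fun i _ => (integral_half_roots (E^[i] (flip p))).1]
    have h1 : ∀ i ∈ Finset.range M0, ∫ τ : UnitAddCircle,
        ((E^[i] (flip p)).roots.map fun a => ‖pt τ - a‖ ^ (-(1 / 2) : ℝ)).sum ≤ (n : ℝ) * 2 := by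
      intro i _
      have := (integral_half_roots (E^[i] (flip p))).2
      rw [hdeg i] at this
      exact this
    refine (Finset.sum_le_card_nsmul _ _ _ h1).trans ?_
    rw [Finset.card_range, nsmul_eq_mul]
  have hLi : Integrable (fun τ : UnitAddCircle => Real.log ‖(E^[k] (flip p)).eval (pt τ)‖) :=
    integrable_log_norm_eval _
  have hL := integral_it (p := p) (by omega) k
  rw [hn] at hL
  refine ⟨fun τ => Real.log (2 * (m + 1) * (3 * m) ^ m) +
      (Real.log ‖(E^[k] (flip p)).eval (pt τ)‖ - (k : ℕ) * Real.log n) +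
      lam0 M0 n * ((eps m * n)⁻¹ * ∑ s ∈ S, ker ((n : ℝ) ^ 3)⁻¹ (A s) (pt τ)) +
      (n : ℝ) ^ (-(3 / 2) : ℝ) * ∑ i ∈ Finset.range M0,
        ((E^[i] (flip p)).roots.map fun a => ‖pt τ - a‖ ^ (-(1 / 2) : ℝ)).sum, ?_, ?_, ?_⟩
  · exact (int4 hLi hWi hRi _ _ _ _ _).1
  · rw [(int4 hLi hWi hRi _ _ _ _ _).2, hL]
    have hM0R : (M0 : ℝ) = (m + 1) * (d + 1) := by rw [hM0]; push_cast; ring
    -- first error
    have e1 : lam0 M0 n * ((eps m * n)⁻¹ * ∫ τ : UnitAddCircle, ∑ s ∈ S,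
        ker ((n : ℝ) ^ 3)⁻¹ (A s) (pt τ)) ≤ 32 * (m + 1) ^ 2 / eps m := by
      have h1 : lam0 M0 n * ((eps m * n)⁻¹ * ∫ τ : UnitAddCircle, ∑ s ∈ S,
          ker ((n : ℝ) ^ 3)⁻¹ (A s) (pt τ)) ≤
          (8 * M0 * Real.log n) * ((eps m * n)⁻¹ * (M0 * (4 * Real.log n))) := by
        apply mul_le_mul (lam0_le M0 hlog)
        · exact mul_le_mul_of_nonneg_left hWv (inv_nonneg.mpr (mul_pos he hnR).le)
        · apply mul_nonneg (inv_nonneg.mpr (mul_pos he hnR).le)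
          apply integral_nonneg
          intro τ
          exact Finset.sum_nonneg fun _ _ => ker_nonneg _ _ _
        · positivity
      refine h1.trans ?_
      have h2 : ((d + 1) * Real.log n) * ((d + 1) * Real.log n) ≤ n := by
        refine (mul_self_le_mul_self (by positivity) hdn).trans hsq.le
      have h3 : (8 * M0 * Real.log n) * ((eps m * n)⁻¹ * (M0 * (4 * Real.log n))) =
          32 * (m + 1) ^ 2 / eps m * ((((d + 1) * Real.log n) * ((d + 1) * Real.log n)) / n) := by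
        rw [hM0R]
        field_simp
        ring
      rw [h3]
      have h4 : (((d + 1) * Real.log n) * ((d + 1) * Real.log n)) / n ≤ 1 := by
        rw [div_le_one hnR]
        exact h2
      exact mul_le_of_le_one_right (by positivity) h4
    -- second error
    have e2 : (n : ℝ) ^ (-(3 / 2) : ℝ) * ∫ τ : UnitAddCircle, ∑ i ∈ Finset.range M0,
        ((E^[i] (flip p)).roots.map fun a => ‖pt τ - a‖ ^ (-(1 / 2) : ℝ)).sum ≤ 2 * (m + 1) := by
      refine (mul_le_mul_of_nonneg_left hRv (Real.rpow_nonneg hnR.le _)).trans ?_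
      have h1 : (n : ℝ) ^ (-(3 / 2) : ℝ) * (M0 * (n * 2)) =
          2 * M0 * ((n : ℝ) ^ (-(3 / 2) : ℝ) * n) := by ring
      rw [h1, rpow_half (by omega), hM0R]
      have h2 : ((d : ℝ) + 1) * (Real.sqrt n)⁻¹ ≤ 1 := by
        rw [← div_eq_mul_inv, div_le_one hsq0]
        exact hd1
      calc 2 * (((m : ℝ) + 1) * (d + 1)) * (Real.sqrt n)⁻¹
          = 2 * (m + 1) * ((d + 1) * (Real.sqrt n)⁻¹) := by ring
        _ ≤ 2 * (m + 1) * 1 := mul_le_mul_of_nonneg_left h2 (by positivity)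
        _ = _ := by ring
    linarith
  · have hall : ∀ᵐ τ : UnitAddCircle, ∀ r, (E^[r] (flip p)).eval (pt τ) ≠ 0 :=
      ae_all_iff.mpr fun r => ae_eval_ne_zero _ (hne r)
    filter_upwards [hall] with τ hτ hY
    exact pointwise hm hp hn (by omega) hcard hSn hgap hd hmd hbig (Circle.norm_coe _) hτ hY

theorem one_var_pair (m : ℕ) (hm : 1 ≤ m) : ∃ (C : ℝ) (n₀ : ℕ), 0 ≤ C ∧
    ∀ (S : Finset ℕ) (A : ℕ → ℂ[X]) (p : ℂ[X]) (n d : ℕ), p = ∑ s ∈ S, X ^ s * A s →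
    p.natDegree = n → n₀ ≤ n → S.card ≤ m + 1 → (∀ s ∈ S, s ≤ n) →
    (∀ s ∈ S, ∀ t ∈ S, s ≠ t → (n : ℝ) ≤ m * |(s : ℝ) - t|) →
    (∀ s ∈ S, (A s).natDegree ≤ d) → (d + 1) * Real.log n ≤ Real.sqrt n →
    ∀ s₀ ∈ S, A s₀ ≠ 0 →
    ∫ τ : UnitAddCircle, Real.log (‖p.eval (pt τ)‖ ^ 2 + ‖(A s₀).eval (pt τ)‖ ^ 2) ≤
      2 * p.logMahlerMeasure + C := by
  obtain ⟨C, n₀, hC, h⟩ := one_var m hm
  have hl2 : 0 ≤ Real.log 2 := Real.log_nonneg (by norm_num)
  refine ⟨2 * C + Real.log 2, max n₀ 1, by positivity, ?_⟩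
  intro S A p n d hp hn hn0 hcard hSn hgap hd hdn s₀ hs₀ hA
  have hn1 : 1 ≤ n := (le_max_right _ _).trans hn0
  have hp0 : p ≠ 0 := by
    rintro rfl
    rw [natDegree_zero] at hn
    omega
  obtain ⟨Φ, hΦ, hΦv, hae⟩ := h S A p n d hp hn ((le_max_left _ _).trans hn0) hcard hSn hgap hd hdn
  have h1 : ∫ τ : UnitAddCircle, Real.log (‖p.eval (pt τ)‖ ^ 2 + ‖(A s₀).eval (pt τ)‖ ^ 2) ≤
      ∫ τ : UnitAddCircle, (Real.log 2 + 2 * Φ τ) := by
    refine integral_mono_ae (integrable_log_sq_eval p (A s₀) hp0)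
      ((integrable_const _).add (hΦ.const_mul 2)) ?_
    filter_upwards [hae, ae_eval_ne_zero p hp0, ae_eval_ne_zero (A s₀) hA] with τ h2 h3 h4
    have h5 : ‖(A s₀).eval (pt τ)‖ ≤ ∑ s ∈ S, ‖(A s).eval (pt τ)‖ :=
      Finset.single_le_sum (f := fun s => ‖(A s).eval (pt τ)‖) (fun _ _ => norm_nonneg _) hs₀
    have h6 : 0 < ‖(A s₀).eval (pt τ)‖ := norm_pos_iff.mpr h4
    have h7 : ‖p.eval (pt τ)‖ ≤ ∑ s ∈ S, ‖(A s).eval (pt τ)‖ := by
      rw [hp, eval_finsetSum]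
      refine (norm_sum_le _ _).trans (le_of_eq ?_)
      apply Finset.sum_congr rfl
      intro s _
      rw [eval_mul, eval_pow, eval_X, norm_mul, norm_pow, Circle.norm_coe, one_pow, one_mul]
    have h8 : 0 < ∑ s ∈ S, ‖(A s).eval (pt τ)‖ := h6.trans_le h5
    have h9 := h2 h8.ne'
    show Real.log (‖p.eval (pt τ)‖ ^ 2 + ‖(A s₀).eval (pt τ)‖ ^ 2) ≤ Real.log 2 + 2 * Φ τ
    have h10 : ‖p.eval (pt τ)‖ ^ 2 + ‖(A s₀).eval (pt τ)‖ ^ 2 ≤
        2 * (∑ s ∈ S, ‖(A s).eval (pt τ)‖) ^ 2 := by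
      have a1 := pow_le_pow_left₀ (norm_nonneg _) h5 2
      have a2 := pow_le_pow_left₀ (norm_nonneg _) h7 2
      linarith
    have h11 : Real.log (‖p.eval (pt τ)‖ ^ 2 + ‖(A s₀).eval (pt τ)‖ ^ 2) ≤
        Real.log 2 + 2 * Real.log (∑ s ∈ S, ‖(A s).eval (pt τ)‖) := by
      refine (Real.log_le_log (by positivity) h10).trans (le_of_eq ?_)
      rw [Real.log_mul (by norm_num) (by positivity), Real.log_pow]
      norm_num
    linarith
  rw [integral_add (integrable_const _) (hΦ.const_mul 2), integral_const, integral_const_mul] at h1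
  have h7 : (volume : Measure UnitAddCircle).real Set.univ = 1 := by
    simp [Measure.real]
  rw [h7, one_smul] at h1
  linarith

end Pool.Agent.GAP
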