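import Pool.Agent.GAP.A06One

open Polynomial MeasureTheory Pool.Agent.H27Mahler

namespace Pool.Agent.GAP

/-- the decomposition into blocks -/
theorem blocks {m n d : ℕ} (p : ℂ[X]) (hn : p.natDegree = n) (h0 : p.coeff 0 ≠ 0)
    (hd : 2 * d * m < n)
    (hs : ∀ i ∈ p.support, ∀ j ∈ p.support, i ≤ j → j - i ≤ d ∨ n ≤ m * (j - i)) :
    ∃ (S : Finset ℕ) (A : ℕ → ℂ[X]), p = ∑ s ∈ S, X ^ s * A s ∧ S.card ≤ m + 1 ∧
      (∀ s ∈ S, s ≤ n) ∧ (∀ s ∈ S, ∀ t ∈ S, s ≠ t → (n : ℝ) ≤ m * |(s : ℝ) - t|) ∧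
      (∀ s ∈ S, (A s).natDegree ≤ d) ∧ 0 ∈ S ∧
      A 0 = ∑ i ∈ Finset.range (d + 1), monomial i (p.coeff i) := by
  classical
  have hn0 : 0 < n := by omega
  set S : Finset ℕ := p.support.filter (fun i => ∀ j ∈ p.support, j < i → d < i - j) with hS
  set A : ℕ → ℂ[X] := fun s => ∑ i ∈ Finset.range (d + 1), monomial i (p.coeff (s + i)) with hA
  have hmem : ∀ s, s ∈ S ↔ s ∈ p.support ∧ ∀ j ∈ p.support, j < s → d < s - j := by
    intro s
    rw [hS, Finset.mem_filter]
  have hgap : ∀ s ∈ S, ∀ t ∈ S, s < t → n ≤ m * (t - s) := by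
    intro s hs' t ht hst
    have h1 := ((hmem t).mp ht).2 s ((hmem s).mp hs').1 hst
    rcases hs s ((hmem s).mp hs').1 t ((hmem t).mp ht).1 hst.le with h | h
    · omega
    · exact h
  have hle : ∀ s ∈ S, s ≤ n := by
    intro s hs'
    rw [← hn]
    exact le_natDegree_of_mem_supp _ ((hmem s).mp hs').1
  have hcoef : ∀ s i, (A s).coeff i = if i ≤ d then p.coeff (s + i) else 0 := by
    intro s i
    rw [hA]
    simp only [finsetSum_coeff, coeff_monomial]
    rw [Finset.sum_ite_eq' (Finset.range (d + 1)) i fun j => p.coeff (s + j)]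
    simp only [Finset.mem_range, Nat.lt_succ_iff]
  refine ⟨S, A, ?_, ?_, hle, ?_, ?_, ?_, ?_⟩
  · ext c
    rw [finsetSum_coeff]
    have h1 : ∀ s ∈ S, (X ^ s * A s).coeff c = if s ≤ c ∧ c - s ≤ d then p.coeff c else 0 := by
      intro s _
      rw [coeff_X_pow_mul', hcoef]
      by_cases h2 : s ≤ c
      · rw [if_pos h2]
        by_cases h3 : c - s ≤ d
        · rw [if_pos h3, if_pos ⟨h2, h3⟩, Nat.add_sub_cancel' h2]
        · rw [if_neg h3, if_neg (fun h => h3 h.2)]
      · rw [if_neg h2, if_neg (fun h => h2 h.1)]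
    rw [Finset.sum_congr rfl h1]
    by_cases hc : p.coeff c = 0
    · rw [hc]
      simp
    have hcs : c ∈ p.support := mem_support_iff.mpr hc
    -- the start of the block of `c`
    set T : Finset ℕ := p.support.filter (fun j => j ≤ c ∧ c - j ≤ d) with hT
    have hTne : T.Nonempty := ⟨c, by rw [hT, Finset.mem_filter]; exact ⟨hcs, le_rfl, by omega⟩⟩
    set s := T.min' hTne with hsdef
    have hsT : s ∈ T := T.min'_mem hTne
    have hsT' := hsT
    rw [hT, Finset.mem_filter] at hsT'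
    obtain ⟨hs1, hs2, hs3⟩ := hsT'
    have hsS : s ∈ S := by
      rw [hmem]
      refine ⟨hs1, fun j hj hjs => ?_⟩
      by_contra hcon
      push Not at hcon
      have h2 : c - j ≤ 2 * d := by omega
      have h3 : c - j ≤ d := by
        rcases hs j hj c hcs (by omega) with h | h
        · exact h
        · exfalso
          have h4 : m * (c - j) ≤ m * (2 * d) := Nat.mul_le_mul_left _ h2
          have h5 : m * (2 * d) = 2 * d * m := by ring
          omega
      have h4 : j ∈ T := by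
        rw [hT, Finset.mem_filter]
        exact ⟨hj, by omega, h3⟩
      have := T.min'_le j h4
      omega
    rw [Finset.sum_eq_single s]
    · rw [if_pos ⟨hs2, hs3⟩]
    · intro t ht hts
      rw [if_neg]
      rintro ⟨h2, h3⟩
      rcases lt_or_gt_of_ne hts with h4 | h4
      · have := ((hmem s).mp hsS).2 t ((hmem t).mp ht).1 h4
        omega
      · have := ((hmem t).mp ht).2 s ((hmem s).mp hsS).1 h4
        omega
    · intro h
      exact absurd hsS h
  · rw [← Finset.card_range (m + 1)]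
    refine Finset.card_le_card_of_injOn (fun s => m * s / n) ?_ ?_
    · intro s hs'
      have h1 := hle s hs'
      rw [Finset.coe_range, Set.mem_Iio, Nat.lt_succ_iff]
      calc m * s / n ≤ m * n / n := Nat.div_le_div_right (Nat.mul_le_mul_left _ h1)
        _ = m := Nat.mul_div_cancel _ hn0
    · have key : ∀ s ∈ S, ∀ t ∈ S, s < t → m * s / n < m * t / n := by
        intro s hs' t ht hst
        have h1 := hgap s hs' t ht hst
        have h2 : m * s + n ≤ m * t := by
          have h3 : m * (t - s) = m * t - m * s := Nat.mul_sub m t s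
          have h4 : m * s ≤ m * t := Nat.mul_le_mul_left _ hst.le
          omega
        calc m * s / n < m * s / n + 1 := Nat.lt_succ_self _
          _ = (m * s + n) / n := (Nat.add_div_right _ hn0).symm
          _ ≤ m * t / n := Nat.div_le_div_right h2
      intro s hs' t ht hst
      rcases lt_trichotomy s t with h | h | h
      · exact absurd hst (key s hs' t ht h).ne
      · exact h
      · exact absurd hst (key t ht s hs' h).ne'
  · intro s hs' t ht hst
    rcases lt_or_gt_of_ne hst with h | h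
    · have h1 := hgap s hs' t ht h
      have h2 : ((t - s : ℕ) : ℝ) = (t : ℝ) - s := Nat.cast_sub h.le
      have h3 : (n : ℝ) ≤ m * ((t - s : ℕ) : ℝ) := by exact_mod_cast h1
      have h4 : (s : ℝ) < t := by exact_mod_cast h
      rw [abs_of_neg (by linarith), neg_sub, ← h2]
      exact h3
    · have h1 := hgap t ht s hs' h
      have h2 : ((s - t : ℕ) : ℝ) = (s : ℝ) - t := Nat.cast_sub h.le
      have h3 : (n : ℝ) ≤ m * ((s - t : ℕ) : ℝ) := by exact_mod_cast h1
      have h4 : (t : ℝ) < s := by exact_mod_cast h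
      rw [abs_of_pos (by linarith), ← h2]
      exact h3
  · intro s _
    rw [natDegree_le_iff_coeff_eq_zero]
    intro i hi
    rw [hcoef, if_neg (by omega)]
  · rw [hmem]
    exact ⟨mem_support_iff.mpr h0, fun j _ hj => absurd hj (Nat.not_lt_zero j)⟩
  · rw [hA]
    simp only [zero_add]

/-- one variable, in terms of the support -/
theorem gapped_pair (m : ℕ) (hm : 1 ≤ m) : ∃ (C : ℝ) (n₀ : ℕ), 0 ≤ C ∧ ∀ (p : ℂ[X]) (n d : ℕ),
    p.natDegree = n → n₀ ≤ n → p.coeff 0 ≠ 0 → (d + 1) * Real.log n ≤ Real.sqrt n →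
    (∀ i ∈ p.support, ∀ j ∈ p.support, i ≤ j → j - i ≤ d ∨ n ≤ m * (j - i)) →
    ∫ τ : UnitAddCircle, Real.log (‖p.eval (pt τ)‖ ^ 2 +
      ‖(∑ i ∈ Finset.range (d + 1), monomial i (p.coeff i) : ℂ[X]).eval (pt τ)‖ ^ 2) ≤
      2 * p.logMahlerMeasure + C := by
  obtain ⟨C, n₀, hC, h⟩ := one_var_pair m hm
  refine ⟨C, max n₀ (4 * m ^ 2 + 3), hC, ?_⟩
  intro p n d hn hn0 h0 hdn hs
  have hn1 : n₀ ≤ n := (le_max_left _ _).trans hn0
  have hn2 : 4 * m ^ 2 + 3 ≤ n := (le_max_right _ _).trans hn0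
  have hn3 : (3 : ℝ) ≤ n := by
    have : 3 ≤ n := by omega
    exact_mod_cast this
  have hlog : 1 ≤ Real.log n := by
    rw [Real.le_log_iff_exp_le (by linarith)]
    have := Real.exp_one_lt_d9
    linarith
  have hd1 : (d : ℝ) + 1 ≤ Real.sqrt n := by
    refine le_trans ?_ hdn
    have : (0 : ℝ) ≤ (d : ℝ) + 1 := by positivity
    nlinarith
  have hsq : Real.sqrt n * Real.sqrt n = n := Real.mul_self_sqrt (by positivity)
  have hm2 : 2 * (m : ℝ) ≤ Real.sqrt n := by
    apply Real.le_sqrt_of_sq_le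
    have : (4 * m ^ 2 : ℝ) ≤ n := by
      have h1 : 4 * m ^ 2 ≤ n := by omega
      exact_mod_cast h1
    nlinarith
  have hd : 2 * d * m < n := by
    have h1 : (2 * d * m : ℝ) < n := by
      have hm1 : (1 : ℝ) ≤ m := by exact_mod_cast hm
      have h2 : (d : ℝ) < Real.sqrt n := by linarith
      have h3 : 2 * (d : ℝ) * m < Real.sqrt n * (2 * m) := by nlinarith
      have h4 : Real.sqrt n * (2 * m) ≤ Real.sqrt n * Real.sqrt n :=
        mul_le_mul_of_nonneg_left hm2 (Real.sqrt_nonneg _)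
      linarith
    exact_mod_cast h1
  obtain ⟨S, A, hp, hcard, hle, hgap, hdeg, h0S, hA0⟩ := blocks p hn h0 hd hs
  have hA0ne : A 0 ≠ 0 := by
    intro hcon
    rw [hA0] at hcon
    have h1 := congrArg (fun q : ℂ[X] => q.coeff 0) hcon
    simp only [finsetSum_coeff, coeff_monomial, coeff_zero] at h1
    rw [Finset.sum_ite_eq' (Finset.range (d + 1)) 0 fun j => p.coeff j, if_pos (by simp)] at h1
    exact h0 h1
  have := h S A p n d hp hn hn1 hcard hle hgap hdeg hdn 0 h0S hA0ne
  rw [hA0] at this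
  exact this

end Pool.Agent.GAP
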