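import Pool.Agent.GAP.A07Blk
import Pool.Agent.NRG.G11Red

/-!
# Gapped polynomials: slices and the lower part
-/

open MvPolynomial MeasureTheory Pool.Agent.H27Mahler Pool.Agent.NRC Pool.Agent.NRG
open Finsupp (weight)

namespace Pool.Agent.GAP

variable {σ : Type} [Fintype σ]

/-- `P` is gapped with parameter `m`: in some direction of width `n` any two values on the
exponents differ by at most `√n / log n - 1` or by at least `n / m` -/
def Gapped (m : ℕ) (P : MvPolynomial σ ℤ) : Prop :=
  ∃ (lam : σ → ℤ) (n : ℕ), 1 ≤ n ∧ (∀ a ∈ wts lam P, ∀ b ∈ wts lam P, |a - b| ≤ n) ∧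
    (∃ a ∈ wts lam P, ∃ b ∈ wts lam P, |a - b| = n) ∧
    ∀ a ∈ wts lam P, ∀ b ∈ wts lam P,
      (|(a : ℝ) - b| + 1) * Real.log n ≤ Real.sqrt n ∨ (n : ℝ) ≤ m * |(a : ℝ) - b|

/-- the part of `P` with values at most `d` above the minimum -/
noncomputable def low (lam : σ → ℤ) (d : ℕ) (P : MvPolynomial σ ℤ) : MvPolynomial σ ℤ :=
  ∑ s ∈ P.support.filter (fun s => weight lam s - minw lam P ≤ d), monomial s (P.coeff s)

omit [Fintype σ] in
theorem coeff_low (lam : σ → ℤ) (d : ℕ) (P : MvPolynomial σ ℤ) (s : σ →₀ ℕ) :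
    (low lam d P).coeff s = if weight lam s - minw lam P ≤ d then P.coeff s else 0 := by
  classical
  rw [low, coeff_sum]
  simp_rw [coeff_monomial]
  rw [Finset.sum_ite_eq' _ s fun s' => P.coeff s']
  simp only [Finset.mem_filter]
  by_cases h : weight lam s - minw lam P ≤ d
  · by_cases hs : s ∈ P.support
    · rw [if_pos ⟨hs, h⟩, if_pos h]
    · rw [if_neg (fun hh => hs hh.1), if_pos h, notMem_support_iff.mp hs]
  · rw [if_neg (fun hh => h hh.2), if_neg h]

theorem mem_support_low {lam : σ → ℤ} {d : ℕ} {P : MvPolynomial σ ℤ} {s : σ →₀ ℕ} :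
    s ∈ (low lam d P).support ↔ s ∈ P.support ∧ weight lam s - minw lam P ≤ d := by
  rw [mem_support_iff, coeff_low, mem_support_iff]
  by_cases h : weight lam s - minw lam P ≤ d
  · rw [if_pos h]
    exact ⟨fun hh => ⟨hh, h⟩, fun hh => hh.1⟩
  · rw [if_neg h]
    exact ⟨fun hh => absurd rfl hh, fun hh => absurd hh.2 h⟩

theorem low_ne_zero (lam : σ → ℤ) (d : ℕ) {P : MvPolynomial σ ℤ} (hP : P ≠ 0) :
    low lam d P ≠ 0 := by
  obtain ⟨s, hs, hs'⟩ := exists_minw_eq lam hP
  refine support_nonempty.mp ⟨s, mem_support_low.mpr ⟨hs, ?_⟩⟩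
  rw [hs', sub_self]
  positivity

theorem slice_low (lam : σ → ℤ) (d : ℕ) (P : MvPolynomial σ ℤ) (t : Tor σ) :
    slice lam (minw lam P) (low lam d P) t = ∑ i ∈ Finset.range (d + 1),
      Polynomial.monomial i ((slice lam (minw lam P) P t).coeff i) := by
  classical
  have ha : ∀ s ∈ P.support, minw lam P ≤ weight lam s := fun s hs => minw_le hs
  have ha' : ∀ s ∈ (low lam d P).support, minw lam P ≤ weight lam s := fun s hs =>
    minw_le (mem_support_low.mp hs).1
  ext n
  rw [coeff_slice lam _ _ ha', Polynomial.finsetSum_coeff]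
  simp_rw [Polynomial.coeff_monomial, coeff_slice lam _ _ ha]
  rw [Finset.sum_ite_eq' (Finset.range (d + 1)) n fun i =>
    ev t (weightedHomogeneousComponent lam (minw lam P + i) P)]
  by_cases h : n ∈ Finset.range (d + 1)
  · rw [if_pos h]
    have hn : n ≤ d := Nat.lt_succ_iff.mp (Finset.mem_range.mp h)
    congr 1
    ext s
    rw [coeff_weightedHomogeneousComponent, coeff_weightedHomogeneousComponent, coeff_low]
    by_cases hw : weight lam s = minw lam P + n
    · rw [if_pos hw, if_pos hw, if_pos]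
      rw [hw, add_sub_cancel_left]
      exact_mod_cast hn
    · rw [if_neg hw, if_neg hw]
  · rw [if_neg h]
    have hn : d < n := by
      by_contra hcon
      exact h (Finset.mem_range.mpr (by omega))
    have h0 : weightedHomogeneousComponent lam (minw lam P + n) (low lam d P) = 0 := by
      by_contra hne
      obtain ⟨s, hs, hw⟩ := whc_ne_zero_iff.mp hne
      have h1 := (mem_support_low.mp hs).2
      rw [hw, add_sub_cancel_left] at h1
      have h2 : n ≤ d := by exact_mod_cast h1
      omega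
    rw [h0, map_zero]

/-- an irreducible polynomial of width more than `d` does not divide its lower part -/
theorem relPrime_low {lam : σ → ℤ} {d : ℕ} {P : MvPolynomial σ ℤ} (hP : Irreducible P)
    (hw : ∃ a ∈ wts lam P, ∃ b ∈ wts lam P, (d : ℤ) < |a - b|) :
    IsRelPrime P (low lam d P) := by
  classical
  rw [hP.isRelPrime_iff_not_dvd]
  rintro ⟨G, hG⟩
  have hl := low_ne_zero lam d hP.ne_zero
  have hG0 : G ≠ 0 := by
    rintro rfl
    rw [mul_zero] at hG
    exact hl hG
  have h1 := minw_mul lam hP.ne_zero hG0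
  have h2 := minw_mul (-lam) hP.ne_zero hG0
  rw [← hG] at h1 h2
  have hneg : ∀ s : σ →₀ ℕ, weight (-lam) s = - weight lam s := by
    intro s
    rw [Finsupp.weight_apply, Finsupp.weight_apply, Finsupp.sum_fintype _ _ (by simp),
      Finsupp.sum_fintype _ _ (by simp), ← Finset.sum_neg_distrib]
    exact Finset.sum_congr rfl fun i _ => by simp
  obtain ⟨s, hs, hs'⟩ := exists_minw_eq (-lam) hl
  obtain ⟨r, hr, hr'⟩ := exists_minw_eq lam hl
  have h3 : minw lam P ≤ minw lam (low lam d P) := by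
    rw [hr']
    exact minw_le (mem_support_low.mp hr).1
  have h4 := (mem_support_low.mp hs).2
  rw [hneg] at hs'
  obtain ⟨u, hu⟩ := support_nonempty.mpr hG0
  have h6 := minw_le (x := lam) hu
  have h7 := minw_le (x := -lam) hu
  rw [hneg] at h7
  obtain ⟨a, ha, b, hb, hab⟩ := hw
  unfold wts at ha hb
  obtain ⟨x, hx, rfl⟩ := Finset.mem_image.mp ha
  obtain ⟨y, hy, rfl⟩ := Finset.mem_image.mp hb
  have h8 := minw_le (x := lam) hx
  have h9 := minw_le (x := lam) hy
  have h10 := minw_le (x := -lam) hx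
  have h11 := minw_le (x := -lam) hy
  rw [hneg] at h10 h11
  have h12 : |weight lam x - weight lam y| ≤ -minw (-lam) P - minw lam P := by
    rw [abs_le]
    constructor <;> linarith
  linarith

theorem LL_low (m : ℕ) (hm : 1 ≤ m) : ∃ (C : ℝ) (n₀ : ℕ), 0 ≤ C ∧
    ∀ {σ : Type} [Fintype σ] (lam : σ → ℤ) (n d : ℕ)
    (P : MvPolynomial σ ℤ), P ≠ 0 → n₀ ≤ n →
    (∀ a ∈ wts lam P, ∀ b ∈ wts lam P, |a - b| ≤ n) →
    (∃ a ∈ wts lam P, ∃ b ∈ wts lam P, |a - b| = n) →
    (d + 1) * Real.log n ≤ Real.sqrt n →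
    (∀ a ∈ wts lam P, ∀ b ∈ wts lam P, |a - b| ≤ d ∨ (n : ℤ) ≤ m * |a - b|) →
    LL P (low lam d P) ≤ 2 * mm P + C := by
  obtain ⟨C, n₀, hC, h⟩ := gapped_pair m hm
  refine ⟨C, n₀, hC, ?_⟩
  intro σ _ lam n d P hP hn hwid hmax hdn hgap
  classical
  set a := minw lam P with ha'
  have ha : ∀ s ∈ P.support, a ≤ weight lam s := fun s hs => minw_le hs
  have hal : ∀ s ∈ (low lam d P).support, a ≤ weight lam s := fun s hs =>
    ha s (mem_support_low.mp hs).1
  have hmem : ∀ s ∈ P.support, weight lam s ∈ wts lam P := fun s hs => by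
    rw [wts, Finset.mem_image]
    exact ⟨s, hs, rfl⟩
  have hmem' : ∀ x ∈ wts lam P, ∃ s ∈ P.support, weight lam s = x := fun x hx => by
    rw [wts, Finset.mem_image] at hx
    exact hx
  obtain ⟨s₀, hs₀, hs₀'⟩ := exists_minw_eq lam hP
  have hamem : a ∈ wts lam P := by
    rw [ha', hs₀']
    exact hmem s₀ hs₀
  have halow : ∀ x ∈ wts lam P, a ≤ x := fun x hx => by
    obtain ⟨s, hs, rfl⟩ := hmem' x hx
    exact ha s hs
  have htopmem : a + (n : ℤ) ∈ wts lam P := by
    obtain ⟨x, hx, y, hy, hxy⟩ := hmax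
    have h1 := halow x hx
    have h2 := halow y hy
    have h3 := hwid x hx a hamem
    have h4 := hwid y hy a hamem
    rw [abs_le] at h3 h4
    rcases abs_cases (x - y) with ⟨h5, h6⟩ | ⟨h5, h6⟩
    · have : a + (n : ℤ) = x := by linarith
      rwa [this]
    · have : a + (n : ℤ) = y := by linarith
      rwa [this]
  have htop : weightedHomogeneousComponent lam (a + (n : ℤ)) P ≠ 0 :=
    whc_ne_zero_iff.mpr (hmem' _ htopmem)
  have hI := integrable_slice hP lam a ha
  have hI3 : Integrable fun t : Tor σ => 2 * ∫ τ : UnitAddCircle,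
      Real.log ‖(slice lam a P t).eval (AddCircle.toCircle τ : ℂ)‖ := hI.const_mul 2
  have hI4 : Integrable fun t : Tor σ => (2 * ∫ τ : UnitAddCircle,
      Real.log ‖(slice lam a P t).eval (AddCircle.toCircle τ : ℂ)‖) + C :=
    hI3.add (integrable_const _)
  have h1 : ∫ t : Tor σ, ((2 * ∫ τ : UnitAddCircle,
      Real.log ‖(slice lam a P t).eval (AddCircle.toCircle τ : ℂ)‖) + C) = 2 * mm P + C := by
    rw [integral_add hI3 (integrable_const _), integral_const_mul, ← mm_eq_slice hP lam a ha]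
    simp
  have h0 : LL P (low lam d P) = ∫ t : Tor σ, ∫ τ : UnitAddCircle,
      Real.log (‖ev (shear lam (t, τ)) P‖ ^ 2 + ‖ev (shear lam (t, τ)) (low lam d P)‖ ^ 2) :=
    integral_eq_shear lam _ (integrable_LL hP _)
  rw [← h1, h0]
  refine integral_mono_ae (integrable_shear_left lam _ (integrable_LL hP _)) hI4 ?_
  filter_upwards [ae_ev_ne_zero (face_ne_zero lam hP), ae_ev_ne_zero htop] with t hface htt
  set p := slice lam a P t with hp
  have hp0 : p.coeff 0 ≠ 0 := by
    rw [hp, ev_face_eq_coeff lam P t]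
    exact hface
  have hsupp : ∀ i ∈ p.support, a + (i : ℤ) ∈ wts lam P := by
    intro i hi
    rw [Polynomial.mem_support_iff, hp, coeff_slice lam a P ha] at hi
    have h2 : weightedHomogeneousComponent lam (a + (i : ℤ)) P ≠ 0 := by
      intro h3
      rw [h3, map_zero] at hi
      exact hi rfl
    obtain ⟨s, hs, hs'⟩ := whc_ne_zero_iff.mp h2
    rw [← hs']
    exact hmem s hs
  have hpn : p.natDegree = n := by
    refine le_antisymm ?_ ?_
    · rw [Polynomial.natDegree_le_iff_coeff_eq_zero]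
      intro i hi
      by_contra hne
      have h2 := hwid _ (hsupp i (Polynomial.mem_support_iff.mpr hne)) a hamem
      rw [add_sub_cancel_left, abs_of_nonneg (by positivity)] at h2
      have h3 : i ≤ n := by exact_mod_cast h2
      omega
    · refine Polynomial.le_natDegree_of_ne_zero ?_
      rw [hp, coeff_slice lam a P ha]
      exact htt
  have hs : ∀ i ∈ p.support, ∀ j ∈ p.support, i ≤ j → j - i ≤ d ∨ n ≤ m * (j - i) := by
    intro i hi j hj hij
    have h2 := hgap _ (hsupp j hj) _ (hsupp i hi)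
    have h3 : a + (j : ℤ) - (a + (i : ℤ)) = ((j - i : ℕ) : ℤ) := by
      rw [Nat.cast_sub hij]
      ring
    rw [h3, abs_of_nonneg (by positivity)] at h2
    rcases h2 with h2 | h2
    · left
      exact_mod_cast h2
    · right
      exact_mod_cast h2
  have hmain := h p n d hpn hn hp0 hdn hs
  have e1 : ∀ τ : UnitAddCircle, ‖ev (shear lam (t, τ)) P‖ ^ 2 +
      ‖ev (shear lam (t, τ)) (low lam d P)‖ ^ 2 =
      ‖p.eval (AddCircle.toCircle τ : ℂ)‖ ^ 2 +
      ‖(∑ i ∈ Finset.range (d + 1), Polynomial.monomial i (p.coeff i) :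
        Polynomial ℂ).eval (AddCircle.toCircle τ : ℂ)‖ ^ 2 := by
    intro τ
    rw [norm_ev_shear lam a P ha t τ, norm_ev_shear lam a (low lam d P) hal t τ, ha',
      slice_low lam d P t]
  show ∫ τ : UnitAddCircle, Real.log (‖ev (shear lam (t, τ)) P‖ ^ 2 +
      ‖ev (shear lam (t, τ)) (low lam d P)‖ ^ 2) ≤
      (2 * ∫ τ : UnitAddCircle, Real.log ‖p.eval (AddCircle.toCircle τ : ℂ)‖) + C
  simp_rw [e1]
  rw [integral_log_norm_eval]
  exact hmain

/-- gapped irreducible polynomials have a partner of bounded height -/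
theorem part_gapped (m : ℕ) : ∃ C : ℝ, 0 ≤ C ∧ ∀ {σ : Type} [Fintype σ]
    (P : MvPolynomial σ ℤ), Irreducible P → Gapped m P → Part (2 * mm P + C) P := by
  obtain ⟨C, n₀, hC, h⟩ := LL_low (m + 1) (by omega)
  set n₁ := max n₀ 3 with hn₁
  set C' := |Real.log 2 + 2 * Real.log ((n₁ + 1 : ℕ) * 2 ^ (n₁ + 1))| with hC'
  refine ⟨max C C', hC.trans (le_max_left _ _), ?_⟩
  intro σ _ P hP hG
  classical
  obtain ⟨lam, n, hn, hwid, hmax, hgap⟩ := hG
  rcases lt_or_ge n n₁ with hlt | hge
  · -- few values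
    have hcard2 : 2 ≤ (wts lam P).card := by
      obtain ⟨a, ha, b, hb, hab⟩ := hmax
      refine Finset.one_lt_card.mpr ⟨a, ha, b, hb, ?_⟩
      rintro rfl
      rw [sub_self, abs_zero] at hab
      have : n = 0 := by exact_mod_cast hab.symm
      omega
    obtain ⟨s₀, hs₀, hs₀'⟩ := exists_minw_eq lam hP.ne_zero
    have hamem : minw lam P ∈ wts lam P := by
      rw [hs₀', wts, Finset.mem_image]
      exact ⟨s₀, hs₀, rfl⟩
    have hcard : (wts lam P).card ≤ n₁ + 1 := by
      have h1 : wts lam P ⊆ Finset.Icc (minw lam P) (minw lam P + n₁) := by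
        intro x hx
        have h2 := hwid x hx _ hamem
        have h3 : minw lam P ≤ x := by
          rw [wts, Finset.mem_image] at hx
          obtain ⟨s, hs, rfl⟩ := hx
          exact minw_le hs
        rw [abs_le] at h2
        rw [Finset.mem_Icc]
        have h4 : (n : ℤ) ≤ n₁ := by exact_mod_cast hlt.le
        exact ⟨h3, by linarith⟩
      refine (Finset.card_le_card h1).trans ?_
      rw [Int.card_Icc]
      omega
    refine (part_sparse lam (n₁ + 1) hP hcard2 hcard).mono ?_
    have h1 := le_abs_self (Real.log 2 + 2 * Real.log ((n₁ + 1 : ℕ) * 2 ^ (n₁ + 1)))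
    have h2 := le_max_right C C'
    rw [← hC'] at h1
    linarith
  · -- the gap
    have hn0 : n₀ ≤ n := (le_max_left _ _).trans hge
    have hn3 : 3 ≤ n := (le_max_right _ _).trans hge
    have hn3' : (3 : ℝ) ≤ n := by exact_mod_cast hn3
    have hlog : 1 ≤ Real.log n := by
      rw [Real.le_log_iff_exp_le (by linarith)]
      have := Real.exp_one_lt_d9
      linarith
    have hlog0 : 0 < Real.log n := by linarith
    have hsq0 := Real.sqrt_nonneg (n : ℝ)
    obtain ⟨a₀, ha₀, b₀, hb₀, hab₀⟩ := hmax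
    set D := ⌊Real.sqrt n / Real.log n⌋₊ with hD
    have hD1 : 1 ≤ D := by
      rw [hD, Nat.one_le_floor_iff, le_div_iff₀ hlog0, one_mul]
      rcases hgap a₀ ha₀ a₀ ha₀ with h1 | h1
      · rwa [sub_self, abs_zero, zero_add, one_mul] at h1
      · rw [sub_self, abs_zero, mul_zero] at h1
        linarith
    have hDle : (D : ℝ) * Real.log n ≤ Real.sqrt n := by
      rw [← le_div_iff₀ hlog0]
      exact Nat.floor_le (div_nonneg hsq0 hlog0.le)
    obtain ⟨d, hd⟩ : ∃ d, D = d + 1 := ⟨D - 1, by omega⟩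
    have hdn : ((d : ℝ) + 1) * Real.log n ≤ Real.sqrt n := by
      have : (D : ℝ) = (d : ℝ) + 1 := by
        rw [hd]
        push_cast
        ring
      rwa [← this]
    have hdlt : d < n := by
      have h1 : (d : ℝ) + 1 ≤ Real.sqrt n := by
        refine le_trans ?_ hdn
        have : (0 : ℝ) ≤ (d : ℝ) + 1 := by positivity
        nlinarith
      have h2 : Real.sqrt n ≤ n := by
        rw [Real.sqrt_le_left (by linarith)]
        nlinarith
      have h3 : (d : ℝ) < n := by linarith
      exact_mod_cast h3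
    have hgap' : ∀ a ∈ wts lam P, ∀ b ∈ wts lam P,
        |a - b| ≤ d ∨ (n : ℤ) ≤ ((m + 1 : ℕ) : ℤ) * |a - b| := by
      intro a ha b hb
      have hcast : |(a : ℝ) - b| = ((|a - b| : ℤ) : ℝ) := by push_cast; rfl
      have hnn : 0 ≤ |a - b| := abs_nonneg _
      rcases hgap a ha b hb with h1 | h1
      · left
        obtain ⟨x, hx⟩ : ∃ x : ℕ, |a - b| = x := ⟨(|a - b|).toNat, (Int.toNat_of_nonneg hnn).symm⟩
        rw [hcast, hx, Int.cast_natCast, ← le_div_iff₀ hlog0] at h1
        have h2 : x + 1 ≤ D := by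
          rw [hD]
          refine Nat.le_floor ?_
          push_cast
          exact h1
        rw [hx]
        have h3 : x ≤ d := by omega
        exact_mod_cast h3
      · right
        rw [hcast] at h1
        have h2 : (n : ℤ) ≤ m * |a - b| := by exact_mod_cast h1
        push_cast
        nlinarith
    have hmax' : ∃ a ∈ wts lam P, ∃ b ∈ wts lam P, |a - b| = n := ⟨a₀, ha₀, b₀, hb₀, hab₀⟩
    have hLL := h lam n d P hP.ne_zero hn0 hwid hmax' hdn hgap'
    refine ⟨hP.ne_zero, low lam d P, low_ne_zero lam d hP.ne_zero, relPrime_low hP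
      ⟨a₀, ha₀, b₀, hb₀, ?_⟩, hLL.trans ?_⟩
    · rw [hab₀]
      exact_mod_cast hdlt
    · have := le_max_left C C'
      linarith

end Pool.Agent.GAP
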