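import Pool.Agent.GAP.A08Fib
import Pool.Agent.NRG.G12Vars

open MvPolynomial MeasureTheory Filter Topology Pool.Agent.H27Mahler Pool.Agent.SpCl
open Pool.Agent.NRC Pool.Agent.NRG

namespace Pool.Agent.GAP

/-- irreducible polynomials which are constant, nonreciprocal, sparse or gapped in some direction -/
def Mild {σ : Type} [Fintype σ] (m : ℕ) (P : MvPolynomial σ ℤ) : Prop := Tame m P ∨ Gapped m P

theorem part_mild (m : ℕ) (X : ℝ) : ∃ c : ℝ, ∀ {σ : Type} [Fintype σ] (P : MvPolynomial σ ℤ),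
    Irreducible P → mm P ≤ X → Mild m P → Part c P := by
  obtain ⟨C, hC, h⟩ := part_gapped m
  refine ⟨max (Real.log 2 + 2 * (|Real.log (m * 2 ^ m)| + X)) (2 * X + C), ?_⟩
  intro σ _ P hP hX hm
  rcases hm with hm | hm
  · exact (part_tame hP hX hm).mono (le_max_left _ _)
  · exact (h P hP hm).mono ((by linarith : 2 * mm P + C ≤ 2 * X + C).trans (le_max_right _ _))

theorem mem_PP_of_mild (m : ℕ) (X : ℝ) : ∃ c : ℝ, ∀ (k : ℕ) (F : MvPolynomial (Fin k) ℤ), F ≠ 0 →
    mm F ≤ X → (∀ P, Irreducible P → P ∣ F → mm P ≠ 0 → Mild m P) → mm F ∈ PP c := by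
  obtain ⟨c, hc⟩ := part_mild m X
  refine ⟨c, fun k F hF hX hT => ?_⟩
  obtain ⟨s, hs, hsum⟩ := sum_of_tame (c := c) F hF hX
    (fun P hP hPF h0 hPX => hc P hP hPX (hT P hP hPF h0))
  exact ⟨k, s, hs, by rw [(mm_prod s fun P hP => (hs P hP).1).2, hsum]⟩

/-- the logarithmic measures of the products of irreducible polynomials which are not mild -/
def HLog (m : ℕ) : Set ℝ := {x | ∃ (k : ℕ) (s : Multiset (MvPolynomial (Fin k) ℤ)),
  (∀ P ∈ s, Irreducible P ∧ ¬ Mild m P) ∧ mm s.prod = x}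

theorem HLog_subset_LLog (m : ℕ) : HLog m ⊆ LLog := by
  rintro x ⟨k, s, hs, rfl⟩
  exact ⟨k, s.prod, (mm_prod s fun P hP => (hs P hP).1.ne_zero).1, rfl⟩

/-- splitting into a mild and a hard part -/
theorem split_mild {σ : Type} [Fintype σ] {m : ℕ} {c X : ℝ}
    (hc : ∀ P : MvPolynomial σ ℤ, Irreducible P → mm P ≤ X → Mild m P → Part c P)
    (F : MvPolynomial σ ℤ) : F ≠ 0 → mm F ≤ X →
    ∃ s t : Multiset (MvPolynomial σ ℤ), (∀ P ∈ s, Part c P) ∧
      (∀ P ∈ t, Irreducible P ∧ ¬ Mild m P) ∧ (s.map mm).sum + (t.map mm).sum = mm F := by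
  classical
  refine WfDvdMonoid.induction_on_irreducible (motive := fun F : MvPolynomial σ ℤ =>
    F ≠ 0 → mm F ≤ X →
    ∃ s t : Multiset (MvPolynomial σ ℤ), (∀ P ∈ s, Part c P) ∧
      (∀ P ∈ t, Irreducible P ∧ ¬ Mild m P) ∧ (s.map mm).sum + (t.map mm).sum = mm F) F ?_ ?_ ?_
  · intro h; exact absurd rfl h
  · intro u hu _ _
    exact ⟨0, 0, by simp, by simp, by rw [mm_unit hu]; simp⟩
  · intro a i ha hi ih _ hX
    have hi0 : i ≠ 0 := hi.ne_zero
    have hmul := mm_mul hi0 ha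
    have hni := mm_nonneg i
    have hna := mm_nonneg a
    obtain ⟨s, t, hs, ht, hsum⟩ := ih ha (by linarith)
    by_cases h0 : Mild m i
    · refine ⟨i ::ₘ s, t, ?_, ht, ?_⟩
      · intro P hP
        rcases Multiset.mem_cons.mp hP with rfl | hP
        · exact hc _ hi (by linarith) h0
        · exact hs P hP
      · rw [Multiset.map_cons, Multiset.sum_cons, hmul, ← hsum]
        ring
    · refine ⟨s, i ::ₘ t, hs, ?_, ?_⟩
      · intro P hP
        rcases Multiset.mem_cons.mp hP with rfl | hP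
        · exact ⟨hi, h0⟩
        · exact ht P hP
      · rw [Multiset.map_cons, Multiset.sum_cons, hmul, ← hsum]
        ring

theorem isClosed_LLog_of_hard {m : ℕ} (h : closure (HLog m) ⊆ LLog) : IsClosed LLog := by
  rw [← isSeqClosed_iff_isClosed]
  intro v x hv hx
  choose k F hF hm using hv
  obtain ⟨X, hX⟩ := hx.bddAbove_range
  have hX' : ∀ n, mm (F n) ≤ X := fun n => by
    rw [hm]
    exact hX ⟨n, rfl⟩
  obtain ⟨c, hc⟩ := part_mild m X
  choose s t hs ht hst using fun n => split_mild (m := m) (c := c) (X := X)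
    (fun P hP hPX hQ => hc P hP hPX hQ) (F n) (hF n) (hX' n)
  have hsm : ∀ n, ((s n).map mm).sum ∈ PP c := fun n =>
    ⟨k n, s n, hs n, (mm_prod (s n) fun P hP => (hs n P hP).1).2⟩
  have htm : ∀ n, ((t n).map mm).sum ∈ HLog m := fun n =>
    ⟨k n, t n, ht n, (mm_prod (t n) fun P hP => (ht n P hP).1.ne_zero).2⟩
  have hs0 : ∀ n, 0 ≤ ((s n).map mm).sum := fun n => PP_nonneg (hsm n)
  have ht0 : ∀ n, 0 ≤ ((t n).map mm).sum := fun n => LLog_nonneg (HLog_subset_LLog m (htm n))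
  set l : Ultrafilter ℕ := Ultrafilter.of atTop with hl
  have hle : (l : Filter ℕ) ≤ atTop := Ultrafilter.of_le atTop
  have hsb : ∀ n, ((s n).map mm).sum ∈ Set.Icc (0 : ℝ) X := fun n =>
    ⟨hs0 n, by have := hst n; have := hX' n; have := ht0 n; linarith⟩
  obtain ⟨y, hy1, hy⟩ := isCompact_Icc.ultrafilter_le_nhds (l.map fun n => ((s n).map mm).sum)
    (by
      rw [Filter.le_principal_iff, Ultrafilter.mem_coe, Ultrafilter.mem_map]
      exact Filter.mem_of_superset Filter.univ_mem fun n _ => hsb n)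
  have hy' : Tendsto (fun n => ((s n).map mm).sum) (l : Filter ℕ) (𝓝 y) := hy
  have hyP : y ∈ PP c :=
    (isClosed_PP _).mem_of_tendsto hy' (Eventually.of_forall hsm)
  have hz' : Tendsto (fun n => ((t n).map mm).sum) (l : Filter ℕ) (𝓝 (x - y)) := by
    refine ((hx.mono_left hle).sub hy').congr fun n => ?_
    rw [← hm, ← hst n]
    ring
  have hzW : x - y ∈ closure (HLog m) :=
    mem_closure_of_tendsto hz' (Eventually.of_forall htm)
  have := add_mem_LLog (PP_subset_LLog _ hyP) (h hzW)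
  rwa [add_sub_cancel] at this

end Pool.Agent.GAP
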