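import Mathlib
import Pool.Agent.H27Mahler.Deriv
import Pool.Agent.H27Mahler.Sparse

/-!
# Polynomials with long gaps: definitions
-/

open Polynomial MeasureTheory Pool.Agent.H27Mahler

namespace Pool.Agent.GAP

/-- the operator `f ↦ X f'` -/
noncomputable def E (f : ℂ[X]) : ℂ[X] := X * derivative f

/-- `G` has degree `n`, all roots in the closed unit disc, and dominates `f` outside the open disc -/
structure Dom (n : ℕ) (f G : ℂ[X]) : Prop where
  deg : G.natDegree = n
  roots : ∀ a ∈ G.roots, ‖a‖ ≤ 1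
  le : ∀ z : ℂ, 1 ≤ ‖z‖ → ‖f.eval z‖ ≤ ‖G.eval z‖

/-- the product of the operators `E + c` over a list -/
noncomputable def opl (l : List ℝ) (f : ℂ[X]) : ℂ[X] := l.foldr (fun c g => E g + C (c : ℂ) * g) f

/-- the point of the unit circle -/
noncomputable abbrev pt (τ : UnitAddCircle) : ℂ := (AddCircle.toCircle τ : ℂ)

/-- the truncated kernel of the roots of the blocks -/
noncomputable def ker (δ : ℝ) (A : ℂ[X]) (z : ℂ) : ℝ :=
  (A.roots.map fun b => (max ‖z - b‖ δ)⁻¹).sum

end Pool.Agent.GAP
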